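import Pool.Agent.Helper52.Wq2.Defs

set_option autoImplicit false

namespace Pool.Agent.Helper52.Wq2

variable {V W U : Type*}

theorem conn_iff (G : SimpleGraph V) (s : Set V) :
    (G.induce s).Connected ↔ Conn G s := by
  constructor
  · intro h
    refine ⟨?_, ?_⟩
    · obtain ⟨x⟩ := h.nonempty
      exact ⟨x.1, x.2⟩
    · intro A hA hne hcl y hy
      obtain ⟨x, hx⟩ := hne
      have hr : (G.induce s).Reachable ⟨x, hA hx⟩ ⟨y, hy⟩ := h.preconnected _ _
      obtain ⟨p⟩ := hr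
      have key : ∀ (u v : s) (p : (G.induce s).Walk u v), u.1 ∈ A → v.1 ∈ A := by
        intro u v p
        induction p with
        | nil => exact id
        | cons hadj _ ih =>
          intro hu
          exact ih (hcl _ hu _ (Subtype.property _) hadj)
      exact key _ _ p hx
  · rintro ⟨⟨x, hx⟩, h⟩
    rw [SimpleGraph.connected_iff]
    refine ⟨?_, ⟨⟨x, hx⟩⟩⟩
    intro u v
    have := h {z | ∃ hz : z ∈ s, (G.induce s).Reachable u ⟨z, hz⟩} (by
        rintro z ⟨hz, _⟩; exact hz) ⟨u.1, u.2, SimpleGraph.Reachable.refl _⟩ (by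
        rintro a ⟨ha, hr⟩ b hb hab
        refine ⟨hb, hr.trans ?_⟩
        exact SimpleGraph.Adj.reachable (G := G.induce s) (u := ⟨a, ha⟩) (v := ⟨b, hb⟩) hab)
    obtain ⟨_, hr⟩ := this v.2
    exact hr

/-- Connectedness from a root. -/
theorem conn_of_root {G : SimpleGraph V} {s : Set V} {r : V} (hr : r ∈ s)
    (h : ∀ x ∈ s, Relation.ReflTransGen (fun a b => G.Adj a b ∧ b ∈ s) r x) : Conn G s := by
  refine ⟨⟨r, hr⟩, ?_⟩
  intro A hA hne hcl
  have mem : ∀ x, Relation.ReflTransGen (fun a b => G.Adj a b ∧ b ∈ s) r x → x ∈ s := by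
    intro x hx
    cases hx with
    | refl => exact hr
    | tail _ h => exact h.2
  have back : ∀ x, Relation.ReflTransGen (fun a b => G.Adj a b ∧ b ∈ s) r x → x ∈ A → r ∈ A := by
    intro x hx
    induction hx with
    | refl => exact id
    | tail hab hbc ih =>
      intro hc
      exact ih (hcl _ hc _ (mem _ hab) hbc.1.symm)
  have hrA : r ∈ A := by
    obtain ⟨a, ha⟩ := hne
    exact back a (h a (hA ha)) ha
  intro x hx
  have hx' := h x hx
  clear hx
  induction hx' with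
  | refl => exact hrA
  | tail _ hbc ih => exact hcl _ ih _ hbc.2 hbc.1

theorem conn_singleton (G : SimpleGraph V) (v : V) : Conn G {v} := by
  refine conn_of_root (r := v) rfl ?_
  rintro x rfl
  exact Relation.ReflTransGen.refl

theorem Conn.union {G : SimpleGraph V} {s t : Set V} (hs : Conn G s) (ht : Conn G t) {a b : V}
    (ha : a ∈ s) (hb : b ∈ t) (hab : G.Adj a b) : Conn G (s ∪ t) := by
  refine ⟨⟨a, Or.inl ha⟩, ?_⟩
  intro A hA hne hcl
  have h1 : a ∈ A → s ⊆ A := by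
    intro haA x hx
    exact (hs.2 (A ∩ s) Set.inter_subset_right ⟨a, haA, ha⟩
      (fun y hy z hz hyz => ⟨hcl y hy.1 z (Or.inl hz) hyz, hz⟩) hx).1
  have h1' : (A ∩ s).Nonempty → s ⊆ A := by
    intro hn x hx
    exact (hs.2 (A ∩ s) Set.inter_subset_right hn
      (fun y hy z hz hyz => ⟨hcl y hy.1 z (Or.inl hz) hyz, hz⟩) hx).1
  have h2' : (A ∩ t).Nonempty → t ⊆ A := by
    intro hn x hx
    exact (ht.2 (A ∩ t) Set.inter_subset_right hn
      (fun y hy z hz hyz => ⟨hcl y hy.1 z (Or.inr hz) hyz, hz⟩) hx).1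
  obtain ⟨x, hx⟩ := hne
  have both : s ⊆ A ∧ t ⊆ A := by
    rcases hA hx with hxs | hxt
    · have e1 := h1' ⟨x, hx, hxs⟩
      have e2 : b ∈ A := hcl a (e1 ha) b (Or.inr hb) hab
      exact ⟨e1, h2' ⟨b, e2, hb⟩⟩
    · have e1 := h2' ⟨x, hx, hxt⟩
      have e2 : a ∈ A := hcl b (e1 hb) a (Or.inl ha) hab.symm
      exact ⟨h1' ⟨a, e2, ha⟩, e1⟩
  rintro y (hy | hy)
  · exact both.1 hy
  · exact both.2 hy

theorem Conn.image {G : SimpleGraph V} {G' : SimpleGraph W} {s : Set V}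
    (h : Conn G s) (f : V → W)
    (hf : ∀ a ∈ s, ∀ b ∈ s, G.Adj a b → f a = f b ∨ G'.Adj (f a) (f b)) : Conn G' (f '' s) := by
  refine ⟨h.1.image f, ?_⟩
  intro A hA hne hcl
  have := h.2 {a ∈ s | f a ∈ A} (fun a ha => ha.1) (by
    obtain ⟨y, hy⟩ := hne
    obtain ⟨a, ha, rfl⟩ := hA hy
    exact ⟨a, ha, hy⟩) (by
    rintro a ⟨ha, hfa⟩ b hb hab
    refine ⟨hb, ?_⟩
    rcases hf a ha b hb hab with h' | h'
    · rw [← h']; exact hfa
    · exact hcl _ hfa _ ⟨b, hb, rfl⟩ h')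
  rintro _ ⟨a, ha, rfl⟩
  exact (this ha).2

/-- Minors are transitive. -/
theorem Mn.trans {H : SimpleGraph V} {G : SimpleGraph W} {K : SimpleGraph U}
    (h : Mn H G) (h' : Mn G K) : Mn H K := by
  obtain ⟨φ, c1, d1, e1⟩ := h
  obtain ⟨ψ, c2, d2, e2⟩ := h'
  refine ⟨fun v => ⋃ w ∈ φ v, ψ w, ?_, ?_, ?_⟩
  · intro v
    obtain ⟨⟨w₀, hw₀⟩, hv⟩ := c1 v
    obtain ⟨⟨u₀, hu₀⟩, _⟩ := c2 w₀
    refine ⟨⟨u₀, Set.mem_biUnion hw₀ hu₀⟩, ?_⟩
    intro A hA hne hcl
    have full : ∀ w ∈ φ v, (A ∩ ψ w).Nonempty → ψ w ⊆ A := by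
      intro w hw hn x hx
      exact ((c2 w).2 (A ∩ ψ w) Set.inter_subset_right hn
        (fun y hy z hz hyz => ⟨hcl y hy.1 z (Set.mem_biUnion hw hz) hyz, hz⟩) hx).1
    have key := hv {w | w ∈ φ v ∧ ψ w ⊆ A} (fun w hw => hw.1) (by
      obtain ⟨x, hx⟩ := hne
      obtain ⟨w, hw, hxw⟩ := Set.mem_iUnion₂.1 (hA hx)
      exact ⟨w, hw, full w hw ⟨x, hx, hxw⟩⟩) (by
      rintro w ⟨hw, hwA⟩ w' hw' hadj
      obtain ⟨a, ha, b, hb, hab⟩ := e2 w w' hadj
      exact ⟨hw', full w' hw' ⟨b, hcl a (hwA ha) b (Set.mem_biUnion hw' hb) hab, hb⟩⟩)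
    intro x hx
    obtain ⟨w, hw, hxw⟩ := Set.mem_iUnion₂.1 hx
    exact (key hw).2 hxw
  · intro v v' x hx hx'
    obtain ⟨w, hw, hxw⟩ := Set.mem_iUnion₂.1 hx
    obtain ⟨w', hw', hxw'⟩ := Set.mem_iUnion₂.1 hx'
    have := d2 w w' x hxw hxw'
    subst this
    exact d1 v v' w hw hw'
  · intro v v' hadj
    obtain ⟨w, hw, w', hw', hww⟩ := e1 v v' hadj
    obtain ⟨a, ha, b, hb, hab⟩ := e2 w w' hww
    exact ⟨a, Set.mem_biUnion hw ha, b, Set.mem_biUnion hw' hb, hab⟩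

/-- Subgraphs are minors. -/
theorem Mn.of_inj {H : SimpleGraph V} {G : SimpleGraph W} (f : V → W)
    (hf : Function.Injective f) (h : ∀ a b, H.Adj a b → G.Adj (f a) (f b)) : Mn H G := by
  refine ⟨fun v => {f v}, fun v => conn_singleton G _, ?_, ?_⟩
  · rintro v w x hx hx'
    exact hf ((Set.mem_singleton_iff.1 hx).symm.trans (Set.mem_singleton_iff.1 hx'))
  · intro v w hvw
    exact ⟨f v, rfl, f w, rfl, h v w hvw⟩

theorem Mn.refl (G : SimpleGraph V) : Mn G G :=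
  Mn.of_inj id Function.injective_id (fun _ _ h => h)

theorem Mn.of_iso {H : SimpleGraph V} {G : SimpleGraph W} (e : H ≃g G) : Mn H G :=
  Mn.of_inj e e.injective (fun _ _ h => e.map_rel_iff.2 h)

theorem cay_adj {Γ : Type*} [Group Γ] {S : Set Γ} (hS : IsGen S) (a b : Γ) :
    (cay S).Adj a b ↔ a⁻¹ * b ∈ S := by
  unfold cay
  rw [SimpleGraph.fromRel_adj]
  constructor
  · rintro ⟨_, h | h⟩
    · exact h
    · have := hS.2.1 _ h
      simpa using this
  · intro h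
    refine ⟨?_, Or.inl h⟩
    rintro rfl
    apply hS.2.2
    simpa using h

theorem cay_adj_mul {Γ : Type*} [Group Γ] {S : Set Γ} (hS : IsGen S) (a : Γ) {s : Γ}
    (hs : s ∈ S) : (cay S).Adj a (a * s) := by
  rw [cay_adj hS]
  simpa using hs

/-- Sets indexed by an integer interval with consecutive points adjacent are connected. -/
theorem conn_line {G : SimpleGraph V} (f : ℤ → V) (P : ℤ → Prop) (r : ℤ) (hr : P r)
    (hup : ∀ x, r ≤ x → P (x + 1) → P x) (hdn : ∀ x, x ≤ r → P (x - 1) → P x)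
    (hadj : ∀ x, P x → P (x + 1) → G.Adj (f x) (f (x + 1))) :
    Conn G {v | ∃ x, P x ∧ f x = v} := by
  refine conn_of_root (r := f r) ⟨r, hr, rfl⟩ ?_
  rintro _ ⟨x, hx, rfl⟩
  have up : ∀ n : ℕ, P (r + n) → Relation.ReflTransGen
      (fun a b => G.Adj a b ∧ b ∈ {v | ∃ x, P x ∧ f x = v}) (f r) (f (r + n)) := by
    intro n
    induction n with
    | zero => intro _; rw [Nat.cast_zero, add_zero]
    | succ n ih =>
      intro hn
      have e : r + ((n + 1 : ℕ) : ℤ) = (r + n) + 1 := by push_cast; ring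
      rw [e] at hn ⊢
      have hn' := hup (r + n) (by omega) hn
      exact (ih hn').tail ⟨hadj _ hn' hn, _, hn, rfl⟩
  have dn : ∀ n : ℕ, P (r - n) → Relation.ReflTransGen
      (fun a b => G.Adj a b ∧ b ∈ {v | ∃ x, P x ∧ f x = v}) (f r) (f (r - n)) := by
    intro n
    induction n with
    | zero => intro _; rw [Nat.cast_zero, sub_zero]
    | succ n ih =>
      intro hn
      have e : r - ((n + 1 : ℕ) : ℤ) = (r - n) - 1 := by push_cast; ring
      rw [e] at hn ⊢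
      have hn' := hdn (r - n) (by omega) hn
      refine (ih hn').tail ⟨?_, _, hn, rfl⟩
      have := hadj (r - n - 1) hn (by rwa [sub_add_cancel])
      rw [sub_add_cancel] at this
      exact this.symm
  rcases le_total r x with h | h
  · obtain ⟨n, hn⟩ := Int.eq_ofNat_of_zero_le (sub_nonneg.2 h)
    have e : x = r + n := by omega
    rw [e] at hx ⊢
    exact up n hx
  · obtain ⟨n, hn⟩ := Int.eq_ofNat_of_zero_le (sub_nonneg.2 h)
    have e : x = r - n := by omega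
    rw [e] at hx ⊢
    exact dn n hx

end Pool.Agent.Helper52.Wq2
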