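import Pool.Agent.Helper52.Wq2.Rank1
import Pool.Agent.Helper52.Wqo.Cmp

set_option autoImplicit false

open Pointwise

namespace Pool.Agent.Helper52.Wq2

variable {Γ : Type*} [CommGroup Γ] {S : Set Γ} {s : Γ} {N : ℕ} {F : Γ → ℤ}

/-- Three classes of generators modulo `s` and large index: the blown up path is a minor. -/
theorem R1.rich (h : R1 S s N F) (p : ℕ) (hbig : (2 * p) ^ (6 * p) < N)
    {u v w : Γ} (hu : u ∈ S) (hv : v ∈ S) (hw : w ∈ S)
    (hu1 : ((u : Γ ⧸ Subgroup.zpowers s)) ≠ 1) (hv1 : ((v : Γ ⧸ Subgroup.zpowers s)) ≠ 1)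
    (hw1 : ((w : Γ ⧸ Subgroup.zpowers s)) ≠ 1)
    (huv : ((u : Γ ⧸ Subgroup.zpowers s)) ≠ v) (huw : ((u : Γ ⧸ Subgroup.zpowers s)) ≠ w)
    (hvw : ((v : Γ ⧸ Subgroup.zpowers s)) ≠ w) : Mn (Pk p) (cay S) := by
  classical
  refine (pk_of_starZ p).trans ?_
  have hfinQ : Finite (Γ ⧸ Subgroup.zpowers s) :=
    Nat.finite_of_card_ne_zero (by rw [h.card]; exact h.pos.ne')
  have hcos : ∀ (g : Γ) (n : ℤ), ((g * s ^ n : Γ) : Γ ⧸ Subgroup.zpowers s) = g :=
    fun g n => (mem_coset_iff.2 ⟨n, rfl⟩).symm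
  let T : Finset (Γ ⧸ Subgroup.zpowers s) :=
    (Set.toFinite ((fun g : Γ => (g : Γ ⧸ Subgroup.zpowers s)) '' S)).toFinset
  have hT : ∀ g ∈ S, (g : Γ ⧸ Subgroup.zpowers s) ∈ T := by
    intro g hg
    rw [Set.Finite.mem_toFinset]
    exact ⟨g, hg, rfl⟩
  have hT' : ∀ q ∈ T, ∃ g ∈ S, (g : Γ ⧸ Subgroup.zpowers s) = q := by
    intro q hq
    rw [Set.Finite.mem_toFinset] at hq
    exact hq
  by_cases hcard : 2 * p ≤ (T.erase 1).card
  · -- many classes: star with centre `{1}`
    obtain ⟨A, hA, hAc⟩ := Finset.exists_subset_card_eq hcard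
    let e : Fin (2 * p) ≃ A := (Finset.equivFinOfCardEq hAc).symm
    have hl : ∀ i : Fin (2 * p), ∃ g ∈ S, (g : Γ ⧸ Subgroup.zpowers s) = (e i).1 := by
      intro i
      exact hT' _ (Finset.mem_of_mem_erase (hA (e i).2))
    choose l hlS hle using hl
    refine starZ_of_group h.gen h.mem h.inf (conn_singleton _ 1) ?_ l ?_ ?_ ?_
    · rintro g hg n hgn
      have hg1 : g = 1 := hg
      have h2 : g * s ^ n = 1 := hgn
      rw [hg1, one_mul] at h2
      exact h.inf n h2
    · intro i
      exact ⟨1, rfl, by simpa using hlS i⟩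
    · intro i n hn
      have h2 : l i * s ^ n = 1 := hn
      have h3 := hcos (l i) n
      rw [h2, hle i] at h3
      exact (Finset.ne_of_mem_erase (hA (e i).2)) h3.symm
    · intro i j n hn
      have h3 := hcos (l i) n
      rw [hn, hle i, hle j] at h3
      exact (e.injective (Subtype.ext h3)).symm
  · -- few classes: long geodesic
    push Not at hcard
    have hc1 : (insert 1 T).card ≤ 2 * p := by
      have hsub : insert 1 T ⊆ insert 1 (T.erase 1) := by
        intro x hx
        by_cases hx1 : x = 1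
        · rw [hx1]; exact Finset.mem_insert_self _ _
        · rcases Finset.mem_insert.1 hx with h' | h'
          · exact absurd h' hx1
          · exact Finset.mem_insert_of_mem (Finset.mem_erase.2 ⟨hx1, h'⟩)
      exact (Finset.card_le_card hsub).trans ((Finset.card_insert_le _ _).trans hcard)
    let B : ℕ → Finset (Γ ⧸ Subgroup.zpowers s) := fun n => (insert 1 T) ^ n
    have hB0 : B 0 = {1} := by
      show (insert 1 T) ^ 0 = {1}
      rw [pow_zero]
      rfl
    have hBs : ∀ n, B (n + 1) = B n * insert 1 T := fun n => pow_succ _ _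
    have hBmul : ∀ n q, q ∈ B n → ∀ g ∈ S, q * (g : Γ ⧸ Subgroup.zpowers s) ∈ B (n + 1) := by
      intro n q hq g hg
      rw [hBs]
      exact Finset.mul_mem_mul hq (Finset.mem_insert_of_mem (hT g hg))
    have hBmono1 : ∀ n, B n ⊆ B (n + 1) := by
      intro n q hq
      rw [hBs]
      have := Finset.mul_mem_mul hq (Finset.mem_insert_self (1 : Γ ⧸ Subgroup.zpowers s) T)
      rwa [mul_one] at this
    have hBmono : ∀ m n, m ≤ n → B m ⊆ B n := by
      intro m n hmn
      induction hmn with
      | refl => exact fun x hx => hx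
      | step _ ih => exact ih.trans (hBmono1 _)
    have hBcard : ∀ n, (B n).card ≤ (2 * p) ^ n := fun n =>
      (Finset.card_pow_le).trans (Nat.pow_le_pow_left hc1 n)
    have hexh : ∀ g : Γ, ∃ n, (g : Γ ⧸ Subgroup.zpowers s) ∈ B n := by
      refine Wqo.gen_induct ⟨h.gen.1, h.gen.2.1⟩ _ ⟨0, ?_⟩ ?_
      · rw [hB0]
        exact Finset.mem_singleton.2 rfl
      · rintro a b ⟨n, hn⟩ hab
        refine ⟨n + 1, ?_⟩
        have := hBmul n _ hn _ hab
        rw [← QuotientGroup.mk_mul, mul_inv_cancel_left] at this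
        exact this
    -- an element far away
    obtain ⟨q, hq⟩ : ∃ q, q ∉ B (6 * p) := by
      by_contra hcon
      push Not at hcon
      have hfin : Fintype (Γ ⧸ Subgroup.zpowers s) := Fintype.ofFinite _
      have h1 : (Finset.univ : Finset (Γ ⧸ Subgroup.zpowers s)).card ≤ (B (6 * p)).card :=
        Finset.card_le_card (fun q _ => hcon q)
      rw [Finset.card_univ, ← Nat.card_eq_fintype_card, h.card] at h1
      have h2 := hBcard (6 * p)
      omega
    obtain ⟨g₀, rfl⟩ := QuotientGroup.mk_surjective q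
    -- levels
    let Lv : ℕ → Γ → Prop := fun n g => (g : Γ ⧸ Subgroup.zpowers s) ∈ B n ∧
      ∀ m, m < n → (g : Γ ⧸ Subgroup.zpowers s) ∉ B m
    have path : ∀ n, ∀ g, Lv n g → ∃ f : ℕ → Γ, f n = g ∧ (∀ i, i ≤ n → Lv i (f i)) ∧
        (∀ i, i < n → (f i)⁻¹ * f (i + 1) ∈ S) := by
      intro n
      induction n with
      | zero =>
        intro g hg
        refine ⟨fun _ => g, rfl, ?_, ?_⟩
        · intro i hi
          have : i = 0 := by omega
          rw [this]
          exact hg
        · intro i hi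
          omega
      | succ n ih =>
        rintro g ⟨hg1, hg2⟩
        have hg1' := hg1
        rw [hBs, Finset.mem_mul] at hg1'
        obtain ⟨q', hq', t, ht, hqt⟩ := hg1'
        have ht1 : t ≠ 1 := by
          rintro rfl
          rw [mul_one] at hqt
          exact hg2 n (by omega) (hqt ▸ hq')
        obtain ⟨x, hx, rfl⟩ := hT' t (by
          rcases Finset.mem_insert.1 ht with h' | h'
          · exact absurd h' ht1
          · exact h')
        have hgx : ((g * x⁻¹ : Γ) : Γ ⧸ Subgroup.zpowers s) = q' := by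
          rw [QuotientGroup.mk_mul, QuotientGroup.mk_inv, ← hqt, mul_inv_cancel_right]
        have hlv : Lv n (g * x⁻¹) := by
          refine ⟨by rw [hgx]; exact hq', ?_⟩
          intro m hm hmem
          have := hBmul m _ hmem x hx
          rw [← QuotientGroup.mk_mul, inv_mul_cancel_right] at this
          exact hg2 (m + 1) (by omega) this
        obtain ⟨f, hfn, hf1, hf2⟩ := ih _ hlv
        refine ⟨fun i => if i ≤ n then f i else g, ?_, ?_, ?_⟩
        · simp
        · intro i hi
          by_cases hin : i ≤ n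
          · simp only [hin, if_true]
            exact hf1 i hin
          · have : i = n + 1 := by omega
            subst this
            simp only [hin, if_false]
            exact ⟨hg1, hg2⟩
        · intro i hi
          by_cases hin : i < n
          · have h1 : i ≤ n := by omega
            have h2 : i + 1 ≤ n := by omega
            simp only [h1, h2, if_true]
            exact hf2 i hin
          · have h1 : i = n := by omega
            subst h1
            have h2 : ¬ (i + 1 ≤ i) := by omega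
            simp only [le_refl, h2, if_true, if_false]
            rw [hfn, mul_inv_rev, inv_inv, inv_mul_cancel_right]
            exact hx
    have hlv0 : ∃ n, Lv n g₀ ∧ 6 * p < n := by
      have hex := hexh g₀
      refine ⟨Nat.find hex, ⟨Nat.find_spec hex, fun m hm => Nat.find_min hex hm⟩, ?_⟩
      by_contra hcon
      push Not at hcon
      exact hq (hBmono _ _ hcon (Nat.find_spec hex))
    obtain ⟨n₀, hn₀, hn₀p⟩ := hlv0
    obtain ⟨f, _, hf1, hf2⟩ := path n₀ g₀ hn₀
    have hlev : ∀ i, i ≤ 6 * p → Lv i (f i) := fun i hi => hf1 i (by omega)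
    have hadj : ∀ i, i < 6 * p → (f i)⁻¹ * f (i + 1) ∈ S := fun i hi => hf2 i (by omega)
    have hlevinj : ∀ i j, i ≤ 6 * p → j ≤ 6 * p →
        ((f i : Γ) : Γ ⧸ Subgroup.zpowers s) = f j → i = j := by
      intro i j hi hj hij
      rcases Nat.lt_trichotomy i j with hlt | heq | hgt
      · exact absurd (hij ▸ (hlev i hi).1) ((hlev j hj).2 i hlt)
      · exact heq
      · exact absurd (hij ▸ (hlev j hj).1) ((hlev i hi).2 j hgt)
    -- leaves
    have hleaf : ∀ k : Fin (2 * p), ∃ x ∈ S, ((x : Γ ⧸ Subgroup.zpowers s)) ≠ 1 ∧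
        ((f (3 * k + 1) * x : Γ) : Γ ⧸ Subgroup.zpowers s) ≠ f (3 * k) ∧
        ((f (3 * k + 1) * x : Γ) : Γ ⧸ Subgroup.zpowers s) ≠ f (3 * k + 2) := by
      intro k
      have inj : ∀ x y : Γ, ((f (3 * k + 1) * x : Γ) : Γ ⧸ Subgroup.zpowers s) =
          (f (3 * k + 1) * y : Γ) → ((x : Γ ⧸ Subgroup.zpowers s)) = y := by
        intro x y hxy
        rw [QuotientGroup.mk_mul, QuotientGroup.mk_mul] at hxy
        exact mul_left_cancel hxy
      by_contra hcon
      push Not at hcon
      have cu := hcon u hu hu1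
      have cv := hcon v hv hv1
      have cw := hcon w hw hw1
      by_cases a1 : ((f (3 * k + 1) * u : Γ) : Γ ⧸ Subgroup.zpowers s) = f (3 * k)
      · have b1 : ((f (3 * k + 1) * v : Γ) : Γ ⧸ Subgroup.zpowers s) ≠ f (3 * k) :=
          fun h' => huv (inj _ _ (a1.trans h'.symm))
        have b2 : ((f (3 * k + 1) * w : Γ) : Γ ⧸ Subgroup.zpowers s) ≠ f (3 * k) :=
          fun h' => huw (inj _ _ (a1.trans h'.symm))
        exact hvw (inj _ _ ((cv b1).trans (cw b2).symm))
      · have a2 := cu a1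
        by_cases b1 : ((f (3 * k + 1) * v : Γ) : Γ ⧸ Subgroup.zpowers s) = f (3 * k)
        · have b2 : ((f (3 * k + 1) * w : Γ) : Γ ⧸ Subgroup.zpowers s) ≠ f (3 * k) :=
            fun h' => hvw (inj _ _ (b1.trans h'.symm))
          exact huw (inj _ _ (a2.trans (cw b2).symm))
        · exact huv (inj _ _ (a2.trans (cv b1).symm))
    choose x hxS hx1 hx2 hx3 using hleaf
    -- level bounds for the leaves
    have hup : ∀ k : Fin (2 * p), ((f (3 * k + 1) * x k : Γ) : Γ ⧸ Subgroup.zpowers s) ∈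
        B (3 * k + 2) := by
      intro k
      have hk := k.2
      have := hBmul _ _ (hlev (3 * k + 1) (by omega)).1 (x k) (hxS k)
      rwa [← QuotientGroup.mk_mul] at this
    have hlow : ∀ (k : Fin (2 * p)) (m : ℕ),
        ((f (3 * k + 1) * x k : Γ) : Γ ⧸ Subgroup.zpowers s) ∈ B m → 3 * (k : ℕ) ≤ m := by
      intro k m hm
      have hk := k.2
      by_contra hcon
      push Not at hcon
      have := hBmul m _ hm (x k)⁻¹ (h.gen.2.1 _ (hxS k))
      rw [← QuotientGroup.mk_mul, mul_inv_cancel_right] at this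
      exact (hlev (3 * k + 1) (by omega)).2 (m + 1) (by omega) this
    have hCconn : Conn (cay S) {g | ∃ y : ℤ, (0 ≤ y ∧ y ≤ 6 * p) ∧ f y.toNat = g} := by
      refine conn_line (fun y : ℤ => f y.toNat) (fun y => 0 ≤ y ∧ y ≤ 6 * p) 0
        ⟨le_refl _, by omega⟩ ?_ ?_ ?_
      · rintro y hy ⟨h1, h2⟩
        exact ⟨hy, by omega⟩
      · rintro y hy ⟨h1, h2⟩
        exact ⟨by omega, by omega⟩
      · rintro y ⟨h1, h2⟩ ⟨h3, h4⟩
        obtain ⟨n, rfl⟩ := Int.eq_ofNat_of_zero_le h1
        have e : ((n : ℤ) + 1).toNat = n + 1 := by omega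
        show (cay S).Adj (f (n : ℤ).toNat) (f ((n : ℤ) + 1).toNat)
        rw [e, Int.toNat_natCast, cay_adj h.gen]
        exact hadj n (by omega)
    refine starZ_of_group h.gen h.mem h.inf hCconn ?_ (fun k => f (3 * k + 1) * x k) ?_ ?_ ?_
    · rintro _ ⟨y, ⟨h1, h2⟩, rfl⟩ n ⟨z, ⟨h3, h4⟩, hz⟩
      have e1 := hcos (f y.toNat) n
      have hz' : f z.toNat = f y.toNat * s ^ n := hz
      rw [← hz'] at e1
      have e2 := hlevinj z.toNat y.toNat (by omega) (by omega) e1
      rw [e2] at hz'
      exact h.inf n (by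
        have := hz'
        rwa [left_eq_mul] at this)
    · intro k
      have hk := k.2
      refine ⟨f (3 * k + 1), ⟨3 * (k : ℕ) + 1, ⟨by omega, by omega⟩, ?_⟩, ?_⟩
      · congr 1
      · rw [inv_mul_cancel_left]
        exact hxS k
    · rintro k n ⟨z, ⟨h3, h4⟩, hz⟩
      have hk := k.2
      have e1 := hcos (f (3 * k + 1) * x k) n
      have hz' : f z.toNat = f (3 * k + 1) * x k * s ^ n := hz
      rw [← hz'] at e1
      have l1 := hlev z.toNat (by omega)
      have l2 := hlow k z.toNat (e1 ▸ l1.1)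
      have l3 : z.toNat ≤ 3 * (k : ℕ) + 2 := by
        by_contra hcon
        push Not at hcon
        exact l1.2 _ hcon (e1.symm ▸ hup k)
      have l4 : z.toNat = 3 * (k : ℕ) ∨ z.toNat = 3 * (k : ℕ) + 1 ∨ z.toNat = 3 * (k : ℕ) + 2 := by
        omega
      rcases l4 with l4 | l4 | l4
      · rw [l4] at e1
        exact hx2 k e1.symm
      · rw [l4, QuotientGroup.mk_mul] at e1
        exact hx1 k (left_eq_mul.1 e1)
      · rw [l4] at e1
        exact hx3 k e1.symm
    · intro k k' n hn
      have e1 := hcos (f (3 * k + 1) * x k) n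
      have hn' : f (3 * k + 1) * x k * s ^ n = f (3 * k' + 1) * x k' := hn
      rw [hn'] at e1
      have m1 : 3 * (k' : ℕ) ≤ 3 * (k : ℕ) + 2 := hlow k' _ (e1.symm ▸ hup k)
      have m2 : 3 * (k : ℕ) ≤ 3 * (k' : ℕ) + 2 := hlow k _ (e1 ▸ hup k')
      exact Fin.ext (by omega)

end Pool.Agent.Helper52.Wq2
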