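import Pool.Agent.Helper52.Wq2.Stars

set_option autoImplicit false

namespace Pool.Agent.Helper52.Wq2

variable {Γ : Type*} [CommGroup Γ]

/-- Independence of two elements. -/
def Ind (a b : Γ) : Prop := ∀ x y : ℤ, a ^ x * b ^ y = 1 → x = 0 ∧ y = 0

theorem ind_inj {a b : Γ} (h : Ind a b) {x y x' y' : ℤ} (he : a ^ x * b ^ y = a ^ x' * b ^ y') :
    x = x' ∧ y = y' := by
  have : a ^ (x - x') * b ^ (y - y') = 1 := by
    rw [zpow_sub, zpow_sub]
    calc a ^ x * (a ^ x')⁻¹ * (b ^ y * (b ^ y')⁻¹)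
        = (a ^ x * b ^ y) * (a ^ x' * b ^ y')⁻¹ := by
          rw [mul_inv]
          exact mul_mul_mul_comm _ _ _ _
      _ = 1 := by rw [he, mul_inv_cancel]
  have := h _ _ this
  omega

theorem star_of_ind {S : Set Γ} (hS : IsGen S) {a b u : Γ} (ha : a ∈ S) (hb : b ∈ S)
    (hu : u ∈ S) (hind : Ind a b) (hn : ∀ x y : ℤ, u ≠ a ^ x * b ^ y) :
    Mn (⊤ : SimpleGraph ℕ) (cay S) := by
  refine complete_of_starZ.trans ?_
  have hinf : ∀ n : ℤ, a ^ n = 1 → n = 0 := by
    intro n h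
    exact (hind n 0 (by rw [h, zpow_zero, mul_one])).1
  refine starZ_of_group hS ha hinf (C := {g | ∃ j : ℤ, True ∧ b ^ j = g})
    (conn_line (fun j : ℤ => b ^ j) (fun _ => True) 0 trivial (fun _ _ _ => trivial)
      (fun _ _ _ => trivial) (fun x _ _ => by
        show (cay S).Adj (b ^ x) (b ^ (x + 1))
        rw [zpow_add_one]
        exact cay_adj_mul hS _ hb)) ?_ (fun j : ℕ => b ^ (j : ℤ) * u) ?_ ?_ ?_
  · rintro _ ⟨j, _, rfl⟩ n ⟨k, _, hk⟩
    have e : a ^ n * b ^ (j - k) = 1 := by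
      have hk' : b ^ k = b ^ j * a ^ n := hk
      rw [zpow_sub, hk', mul_inv_rev]
      rw [mul_comm (a ^ n)⁻¹, ← mul_assoc (b ^ j), mul_inv_cancel, one_mul, mul_inv_cancel]
    exact (hind _ _ e).1
  · intro j
    refine ⟨b ^ (j : ℤ), ⟨j, trivial, rfl⟩, ?_⟩
    rw [inv_mul_cancel_left]
    exact hu
  · rintro j n ⟨k, _, hk⟩
    have hk' : b ^ k = b ^ (j : ℤ) * u * a ^ n := hk
    apply hn (-n) (k - j)
    rw [zpow_neg, zpow_sub, hk']
    rw [mul_comm (b ^ (j : ℤ)) u]
    rw [mul_comm (u * b ^ (j : ℤ)) (a ^ n), mul_assoc (a ^ n), mul_assoc u, mul_inv_cancel, mul_one,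
      inv_mul_cancel_left]
  · intro j k n h
    have h' : b ^ (j : ℤ) * u * a ^ n = b ^ (k : ℤ) * u := h
    have e : a ^ n * b ^ ((j : ℤ) - k) = 1 := by
      rw [zpow_sub]
      have e1 : b ^ (j : ℤ) * a ^ n = b ^ (k : ℤ) := by
        have : (b ^ (j : ℤ) * a ^ n) * u = b ^ (k : ℤ) * u := by
          rw [← h', mul_assoc, mul_assoc, mul_comm (a ^ n) u]
        exact mul_right_cancel this
      rw [← mul_assoc, mul_comm (a ^ n), e1, mul_inv_cancel]
    have := (hind _ _ e).2
    omega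

theorem iso_lat {S : Set Γ} (hS : IsGen S) {a b : Γ} (hind : Ind a b)
    (hgen : ∀ g : Γ, ∃ x y : ℤ, g = a ^ x * b ^ y) (c : Bool)
    (hE : ∀ x y : ℤ, a ^ x * b ^ y ∈ S ↔ ((x, y) : ℤ × ℤ) = (1, 0) ∨ ((x, y) : ℤ × ℤ) = (0, 1) ∨
      (c = true ∧ ((x, y) : ℤ × ℤ) = (1, 1)) ∨ ((-x, -y) : ℤ × ℤ) = (1, 0) ∨
      ((-x, -y) : ℤ × ℤ) = (0, 1) ∨ (c = true ∧ ((-x, -y) : ℤ × ℤ) = (1, 1))) :
    Nonempty (cay S ≃g Lat c) := by
  let f : ℤ × ℤ → Γ := fun v => a ^ v.1 * b ^ v.2
  have hf : Function.Bijective f := by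
    constructor
    · rintro ⟨x, y⟩ ⟨x', y'⟩ h
      obtain ⟨h1, h2⟩ := ind_inj hind h
      exact Prod.ext h1 h2
    · intro g
      obtain ⟨x, y, rfl⟩ := hgen g
      exact ⟨(x, y), rfl⟩
  let e : ℤ × ℤ ≃ Γ := Equiv.ofBijective f hf
  refine ⟨⟨e.symm, ?_⟩⟩
  intro g h
  obtain ⟨⟨x, y⟩, rfl⟩ := e.surjective g
  obtain ⟨⟨x', y'⟩, rfl⟩ := e.surjective h
  rw [Equiv.symm_apply_apply, Equiv.symm_apply_apply, cay_adj hS]
  have e1 : (e (x, y))⁻¹ * e (x', y') = a ^ (x' - x) * b ^ (y' - y) := by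
    show (a ^ x * b ^ y)⁻¹ * (a ^ x' * b ^ y') = _
    rw [zpow_sub, zpow_sub, mul_inv]
    calc (a ^ x)⁻¹ * (b ^ y)⁻¹ * (a ^ x' * b ^ y')
        = ((a ^ x)⁻¹ * a ^ x') * ((b ^ y)⁻¹ * b ^ y') := mul_mul_mul_comm _ _ _ _
      _ = _ := by rw [mul_comm (a ^ x)⁻¹, mul_comm (b ^ y)⁻¹]
  rw [e1, hE]
  unfold Lat
  rw [SimpleGraph.fromRel_adj]
  have n1 : ((-(x' - x), -(y' - y)) : ℤ × ℤ) = (x, y) - (x', y') := by
    simp
  have n2 : ((x' - x, y' - y) : ℤ × ℤ) = (x', y') - (x, y) := by simp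
  rw [n1, n2]
  constructor
  · rintro ⟨_, h | h⟩
    · rcases h with h | h | h
      · exact Or.inl h
      · exact Or.inr (Or.inl h)
      · exact Or.inr (Or.inr (Or.inl h))
    · rcases h with h | h | h
      · exact Or.inr (Or.inr (Or.inr (Or.inl h)))
      · exact Or.inr (Or.inr (Or.inr (Or.inr (Or.inl h))))
      · exact Or.inr (Or.inr (Or.inr (Or.inr (Or.inr h))))
  · intro h
    refine ⟨?_, ?_⟩
    · intro heq
      rw [heq, sub_self] at h
      rcases h with h | h | ⟨_, h⟩ | h | h | ⟨_, h⟩ <;> simp [Prod.ext_iff] at h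
    · rcases h with h | h | h | h | h | h
      · exact Or.inl (Or.inl h)
      · exact Or.inl (Or.inr (Or.inl h))
      · exact Or.inl (Or.inr (Or.inr h))
      · exact Or.inr (Or.inl h)
      · exact Or.inr (Or.inr (Or.inl h))
      · exact Or.inr (Or.inr (Or.inr h))

/-- Two independent generators: universal, or the square or the triangular lattice. -/
theorem rank2 {S : Set Γ} (hS : IsGen S) {s t : Γ} (hs : s ∈ S) (ht : t ∈ S) (hind : Ind s t) :
    Mn (⊤ : SimpleGraph ℕ) (cay S) ∨ ∃ b, Nonempty (cay S ≃g Lat b) := by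
  by_cases huniv : Mn (⊤ : SimpleGraph ℕ) (cay S)
  · exact Or.inl huniv
  right
  have hall : ∀ a ∈ S, ∀ b ∈ S, Ind a b → ∀ u ∈ S, ∃ x y : ℤ, u = a ^ x * b ^ y := by
    intro a ha b hb hab u hu
    by_contra hcon
    push Not at hcon
    exact huniv (star_of_ind hS ha hb hu hab hcon)
  have hgenall : ∀ g : Γ, ∃ x y : ℤ, g = s ^ x * t ^ y := by
    intro g
    have hg : g ∈ Subgroup.closure S := by rw [hS.1]; trivial
    induction hg using Subgroup.closure_induction with
    | mem u hu => exact hall s hs t ht hind u hu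
    | one => exact ⟨0, 0, by simp⟩
    | mul a b _ _ iha ihb =>
      obtain ⟨x, y, rfl⟩ := iha
      obtain ⟨x', y', rfl⟩ := ihb
      exact ⟨x + x', y + y', by rw [zpow_add, zpow_add]; exact mul_mul_mul_comm _ _ _ _⟩
    | inv a _ iha =>
      obtain ⟨x, y, rfl⟩ := iha
      exact ⟨-x, -y, by rw [zpow_neg, zpow_neg, mul_inv]⟩
  have hs' : s⁻¹ ∈ S := hS.2.1 s hs
  have ht' : t⁻¹ ∈ S := hS.2.1 t ht
  have unit : ∀ k : ℤ, ∀ q : ℤ, k * q = 1 → k = 1 ∨ k = -1 := by
    intro k q h
    exact Int.isUnit_iff.1 (IsUnit.of_mul_eq_one q h)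
  -- second exponent
  have hy : ∀ x y : ℤ, s ^ x * t ^ y ∈ S → y = 0 ∨ y = 1 ∨ y = -1 := by
    intro x y hxy
    by_cases h0 : y = 0
    · exact Or.inl h0
    · right
      have hi : Ind s (s ^ x * t ^ y) := by
        intro p q hpq
        have e : s ^ (p + x * q) * t ^ (y * q) = 1 := by
          rw [← hpq, mul_zpow, ← zpow_mul, ← zpow_mul, zpow_add, mul_assoc]
        obtain ⟨e1, e2⟩ := hind _ _ e
        have hq : q = 0 := by
          rcases mul_eq_zero.1 e2 with h | h
          · exact absurd h h0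
          · exact h
        subst hq
        exact ⟨by omega, rfl⟩
      obtain ⟨p, q, hpq⟩ := hall s hs _ hxy hi t ht
      have e : s ^ (p + x * q) * t ^ (y * q) = s ^ (0 : ℤ) * t ^ (1 : ℤ) := by
        rw [zpow_zero, one_mul, zpow_one]
        conv_rhs => rw [hpq]
        rw [mul_zpow, ← zpow_mul, ← zpow_mul, zpow_add, mul_assoc]
      exact unit y q (ind_inj hind e).2
  have hind' : Ind t s := by
    intro x y h
    rw [mul_comm] at h
    exact (hind y x h).symm
  have hx : ∀ x y : ℤ, s ^ x * t ^ y ∈ S → x = 0 ∨ x = 1 ∨ x = -1 := by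
    intro x y hxy
    by_cases h0 : x = 0
    · exact Or.inl h0
    · right
      have hi : Ind t (s ^ x * t ^ y) := by
        intro p q hpq
        have e : s ^ (x * q) * t ^ (p + y * q) = 1 := by
          rw [← hpq, mul_zpow, ← zpow_mul, ← zpow_mul, zpow_add]
          exact mul_left_comm _ _ _
        obtain ⟨e1, e2⟩ := hind _ _ e
        have hq : q = 0 := by
          rcases mul_eq_zero.1 e1 with h | h
          · exact absurd h h0
          · exact h
        subst hq
        exact ⟨by omega, rfl⟩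
      obtain ⟨p, q, hpq⟩ := hall t ht _ hxy hi s hs
      have e : s ^ (x * q) * t ^ (p + y * q) = s ^ (1 : ℤ) * t ^ (0 : ℤ) := by
        rw [zpow_zero, mul_one, zpow_one]
        conv_rhs => rw [hpq]
        rw [mul_zpow, ← zpow_mul, ← zpow_mul, zpow_add]
        exact mul_left_comm _ _ _
      exact unit x q (ind_inj hind e).1
  have h00 : s ^ (0 : ℤ) * t ^ (0 : ℤ) ∉ S := by
    rw [zpow_zero, zpow_zero, one_mul]
    exact hS.2.2
  have m10 : s ^ (1 : ℤ) * t ^ (0 : ℤ) ∈ S := by rw [zpow_one, zpow_zero, mul_one]; exact hs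
  have m01 : s ^ (0 : ℤ) * t ^ (1 : ℤ) ∈ S := by rw [zpow_one, zpow_zero, one_mul]; exact ht
  have m10' : s ^ (-1 : ℤ) * t ^ (0 : ℤ) ∈ S := by
    rw [zpow_neg_one, zpow_zero, mul_one]; exact hs'
  have m01' : s ^ (0 : ℤ) * t ^ (-1 : ℤ) ∈ S := by
    rw [zpow_neg_one, zpow_zero, one_mul]; exact ht'
  have hsymm : ∀ x y : ℤ, s ^ x * t ^ y ∈ S → s ^ (-x) * t ^ (-y) ∈ S := by
    intro x y h
    have := hS.2.1 _ h
    rwa [mul_inv, ← zpow_neg, ← zpow_neg] at this
  have hnot : ¬ (s ^ (1 : ℤ) * t ^ (1 : ℤ) ∈ S ∧ s ^ (1 : ℤ) * t ^ (-1 : ℤ) ∈ S) := by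
    rintro ⟨h1, h2⟩
    have expand : ∀ p q : ℤ, (s ^ (1 : ℤ) * t ^ (1 : ℤ)) ^ p * (s ^ (1 : ℤ) * t ^ (-1 : ℤ)) ^ q
        = s ^ (p + q) * t ^ (p - q) := by
      intro p q
      rw [mul_zpow, mul_zpow, ← zpow_mul, ← zpow_mul, ← zpow_mul, ← zpow_mul]
      rw [mul_mul_mul_comm, ← zpow_add, ← zpow_add]
      congr 2 <;> ring
    have hi : Ind (s ^ (1 : ℤ) * t ^ (1 : ℤ)) (s ^ (1 : ℤ) * t ^ (-1 : ℤ)) := by
      intro p q h
      rw [expand] at h
      obtain ⟨e1, e2⟩ := hind _ _ h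
      omega
    obtain ⟨p, q, hpq⟩ := hall _ h1 _ h2 hi s hs
    rw [expand] at hpq
    have e : s ^ (1 : ℤ) * t ^ (0 : ℤ) = s ^ (p + q) * t ^ (p - q) := by
      rw [zpow_one, zpow_zero, mul_one]; exact hpq
    obtain ⟨e1, e2⟩ := ind_inj hind e
    omega
  by_cases h11 : s ^ (1 : ℤ) * t ^ (1 : ℤ) ∈ S
  · have h1m : s ^ (1 : ℤ) * t ^ (-1 : ℤ) ∉ S := fun h => hnot ⟨h11, h⟩
    have hm1 : s ^ (-1 : ℤ) * t ^ (1 : ℤ) ∉ S := fun h => h1m (by
      have := hsymm _ _ h
      simpa using this)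
    have hmm := hsymm _ _ h11
    refine ⟨true, iso_lat hS hind hgenall true ?_⟩
    intro x y
    constructor
    · intro h
      rcases hx x y h with rfl | rfl | rfl <;> rcases hy _ y h with rfl | rfl | rfl
      · exact absurd h h00
      · simp
      · simp
      · simp
      · simp
      · exact absurd h h1m
      · simp
      · exact absurd h hm1
      · simp
    · simp only [Prod.mk.injEq]
      rintro (⟨rfl, rfl⟩ | ⟨rfl, rfl⟩ | ⟨_, rfl, rfl⟩ | ⟨h1, h2⟩ | ⟨h1, h2⟩ | ⟨_, h1, h2⟩)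
      · exact m10
      · exact m01
      · exact h11
      · have : x = -1 := by omega
        have h3 : y = 0 := by omega
        rw [this, h3]; exact m10'
      · have : x = 0 := by omega
        have h3 : y = -1 := by omega
        rw [this, h3]; exact m01'
      · have : x = -1 := by omega
        have h3 : y = -1 := by omega
        rw [this, h3]; exact hmm
  · have hmm : s ^ (-1 : ℤ) * t ^ (-1 : ℤ) ∉ S := fun h => h11 (by
      have := hsymm _ _ h
      simpa using this)
    by_cases h1m : s ^ (1 : ℤ) * t ^ (-1 : ℤ) ∈ S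
    · have hm1 : s ^ (-1 : ℤ) * t ^ (1 : ℤ) ∈ S := by
        have := hsymm _ _ h1m
        simpa using this
      have conv : ∀ x y : ℤ, s ^ x * (t⁻¹) ^ y = s ^ x * t ^ (-y) := by
        intro x y
        rw [inv_zpow, zpow_neg]
      refine ⟨true, iso_lat hS (a := s) (b := t⁻¹) ?_ ?_ true ?_⟩
      · intro x y h
        rw [conv] at h
        have := hind _ _ h
        omega
      · intro g
        obtain ⟨x, y, rfl⟩ := hgenall g
        exact ⟨x, -y, by rw [conv, neg_neg]⟩
      · intro x y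
        rw [conv]
        constructor
        · intro h
          have hy' := hy _ _ h
          have hy'' : y = 0 ∨ y = 1 ∨ y = -1 := by omega
          rcases hx _ _ h with rfl | rfl | rfl <;> rcases hy'' with rfl | rfl | rfl
          · exact absurd (by simpa using h) h00
          · simp
          · simp
          · simp
          · simp
          · exact absurd (by simpa using h) h11
          · simp
          · exact absurd (by simpa using h) hmm
          · simp
        · simp only [Prod.mk.injEq]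
          rintro (⟨rfl, rfl⟩ | ⟨rfl, rfl⟩ | ⟨_, rfl, rfl⟩ | ⟨h1, h2⟩ | ⟨h1, h2⟩ | ⟨_, h1, h2⟩)
          · exact m10
          · exact m01'
          · exact h1m
          · have : x = -1 := by omega
            have h3 : y = 0 := by omega
            rw [this, h3]; exact m10'
          · have : x = 0 := by omega
            have h3 : y = -1 := by omega
            rw [this, h3]; exact m01
          · have : x = -1 := by omega
            have h3 : y = -1 := by omega
            rw [this, h3]; exact hm1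
    · have hm1 : s ^ (-1 : ℤ) * t ^ (1 : ℤ) ∉ S := fun h => h1m (by
        have := hsymm _ _ h
        simpa using this)
      refine ⟨false, iso_lat hS hind hgenall false ?_⟩
      intro x y
      constructor
      · intro h
        rcases hx x y h with rfl | rfl | rfl <;> rcases hy _ y h with rfl | rfl | rfl
        · exact absurd h h00
        · simp
        · simp
        · simp
        · exact absurd h h11
        · exact absurd h h1m
        · simp
        · exact absurd h hm1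
        · exact absurd h hmm
      · simp only [Prod.mk.injEq]
        rintro (⟨rfl, rfl⟩ | ⟨rfl, rfl⟩ | ⟨h0, _⟩ | ⟨h1, h2⟩ | ⟨h1, h2⟩ | ⟨h0, _⟩)
        · exact m10
        · exact m01
        · exact absurd h0 (by simp)
        · have : x = -1 := by omega
          have h3 : y = 0 := by omega
          rw [this, h3]; exact m10'
        · have : x = 0 := by omega
          have h3 : y = -1 := by omega
          rw [this, h3]; exact m01'
        · exact absurd h0 (by simp)

end Pool.Agent.Helper52.Wq2
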