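import Pool.Agent.Helper52.Wq2.Cyls
import Pool.Agent.Helper52.Wq2.Rank2
import Pool.Agent.Helper52.Wq2.Geo

set_option autoImplicit false

universe u

namespace Pool.Agent.Helper52.Wq2

/-- One-dimensional type. -/
def T1 {V : Type*} (G : SimpleGraph V) (N : ℕ) : Prop :=
  (∃ D, Nonempty (G ≃g Per N D)) ∧
  (5 ≤ N → (∀ p : ℕ, (2 * p) ^ (6 * p) < N → 4 * p ≤ N → Mn (Pk p) G) ∨
    (Mn (Cyl N) G ∧ ∀ M, 3 * N ≤ M → Mn G (Cyl M)))

theorem R1.t1 {Γ : Type*} [CommGroup Γ] {S : Set Γ} {s : Γ} {N : ℕ} {F : Γ → ℤ}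
    (h : R1 S s N F) : T1 (cay S) N := by
  refine ⟨h.per, fun h5 => ?_⟩
  rcases h.classify h5 with ⟨u, hu, v, hv, w, hw, h1, h2, h3, h4, h5', h6⟩ |
    ⟨t, ht, hord, hgen, ⟨hS, _⟩ | ⟨hts, _⟩⟩
  · left
    intro p hp _
    exact h.rich p hp hu hv hw h1 h2 h3 h4 h5' h6
  · right
    obtain ⟨c, hc⟩ := h.col hord hgen
    exact ⟨h.cyl_minor hc ht, fun M hM => h.minor_cyl hc ht hS (by omega) hM⟩
  · left
    intro p _ hp
    exact h.rich2 hord ht hts p hp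

/-- Sequences of graphs of the types that occur. -/
theorem seq_wqo (V : ℕ → Type u) [∀ i, Countable (V i)] (G : ∀ i, SimpleGraph (V i))
    (h : ∀ i, Mn (⊤ : SimpleGraph ℕ) (G i) ∨ (∃ b, Nonempty (G i ≃g Lat b)) ∨ ∃ N, T1 (G i) N) :
    ∃ i j, i < j ∧ Mn (G i) (G j) := by
  classical
  by_contra hcon
  push Not at hcon
  have hu : ∀ j, 1 ≤ j → ¬ Mn (⊤ : SimpleGraph ℕ) (G j) := by
    intro j hj hM
    obtain ⟨e, he⟩ := exists_injective_nat (V 0)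
    have h0 : Mn (G 0) (⊤ : SimpleGraph ℕ) :=
      Mn.of_inj e he (fun a b hab => fun h' => hab.ne (he h'))
    exact hcon 0 j (by omega) (h0.trans hM)
  have hiso : ∀ {W : Type} (X : SimpleGraph W), ∃ K, ∀ i, K ≤ i → ¬ Nonempty (G i ≃g X) := by
    intro W X
    by_cases hx : ∃ i, Nonempty (G i ≃g X)
    · obtain ⟨i, ⟨e⟩⟩ := hx
      refine ⟨i + 1, ?_⟩
      rintro j hj ⟨f⟩
      exact hcon i j (by omega) (Mn.of_iso (e.trans f.symm))
    · exact ⟨0, fun i _ hi => hx ⟨i, hi⟩⟩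
  obtain ⟨K0, hK0⟩ := hiso (Lat false)
  obtain ⟨K1, hK1⟩ := hiso (Lat true)
  have hbig : ∀ B : ℕ, ∃ K, ∀ i, K ≤ i → ∃ N, B < N ∧ T1 (G i) N := by
    intro B
    have hall : ∀ a : (Σ N : Fin (B + 1), (Fin (N : ℕ) → Fin (N : ℕ) → Fin 3 → Bool)),
        ∃ K, ∀ i, K ≤ i → ¬ Nonempty (G i ≃g Per (a.1 : ℕ) a.2) := fun a => hiso _
    choose K hK using hall
    refine ⟨max 1 (max K0 (max K1 (Finset.univ.sup K))), ?_⟩
    intro i hi
    have hi1 : 1 ≤ i := le_trans (le_max_left _ _) hi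
    have hi2 : max K0 (max K1 (Finset.univ.sup K)) ≤ i := le_trans (le_max_right _ _) hi
    have hi3 : K0 ≤ i := le_trans (le_max_left _ _) hi2
    have hi4 : max K1 (Finset.univ.sup K) ≤ i := le_trans (le_max_right _ _) hi2
    have hi5 : K1 ≤ i := le_trans (le_max_left _ _) hi4
    have hi6 : Finset.univ.sup K ≤ i := le_trans (le_max_right _ _) hi4
    rcases h i with h1 | ⟨b, hb⟩ | ⟨N, hN⟩
    · exact absurd h1 (hu i hi1)
    · cases b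
      · exact absurd hb (hK0 i hi3)
      · exact absurd hb (hK1 i hi5)
    · by_cases hNB : N ≤ B
      · obtain ⟨D, hD⟩ := hN.1
        exact absurd hD (hK ⟨⟨N, by omega⟩, D⟩ i
          (le_trans (Finset.le_sup (f := K) (Finset.mem_univ _)) hi6))
      · exact ⟨N, by omega, hN⟩
  obtain ⟨i₁, hi₁⟩ := hbig 5
  obtain ⟨p, _, ⟨D, ⟨e⟩⟩, _⟩ := hi₁ i₁ (le_refl _)
  have hGp : Mn (G i₁) (Pk p) := (Mn.of_iso e).trans (per_pk p D)
  obtain ⟨K, hK⟩ := hbig (max 5 (max ((2 * p) ^ (6 * p)) (4 * p)))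
  have hcyl : ∀ i, i₁ < i → K ≤ i → ∃ N, 5 < N ∧ Mn (Cyl N) (G i) ∧
      ∀ M, 3 * N ≤ M → Mn (G i) (Cyl M) := by
    intro i hi hKi
    obtain ⟨N, hN, hT⟩ := hK i hKi
    have h5 : 5 < N := lt_of_le_of_lt (le_max_left _ _) hN
    have h6 : max ((2 * p) ^ (6 * p)) (4 * p) < N := lt_of_le_of_lt (le_max_right _ _) hN
    have h7 : (2 * p) ^ (6 * p) < N := lt_of_le_of_lt (le_max_left _ _) h6
    have h8 : 4 * p < N := lt_of_le_of_lt (le_max_right _ _) h6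
    rcases hT.2 (by omega) with hr | hc
    · exact absurd (hGp.trans (hr p h7 (by omega))) (hcon i₁ i hi)
    · exact ⟨N, h5, hc⟩
  obtain ⟨N₂, _, _, hM₂⟩ := hcyl (max K (i₁ + 1)) (by omega) (by omega)
  obtain ⟨K₃, hK₃⟩ := hbig (max (3 * N₂) (max 5 (max ((2 * p) ^ (6 * p)) (4 * p))))
  have hi₃ : max K (i₁ + 1) < max K₃ (max K (i₁ + 1) + 1) := by omega
  obtain ⟨N, hN, hT⟩ := hK₃ (max K₃ (max K (i₁ + 1) + 1)) (le_max_left _ _)
  have h0 : 3 * N₂ < N := lt_of_le_of_lt (le_max_left _ _) hN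
  have hN' : max 5 (max ((2 * p) ^ (6 * p)) (4 * p)) < N := lt_of_le_of_lt (le_max_right _ _) hN
  have h5 : 5 < N := lt_of_le_of_lt (le_max_left _ _) hN'
  have h6 : max ((2 * p) ^ (6 * p)) (4 * p) < N := lt_of_le_of_lt (le_max_right _ _) hN'
  have h7 : (2 * p) ^ (6 * p) < N := lt_of_le_of_lt (le_max_left _ _) h6
  have h8 : 4 * p < N := lt_of_le_of_lt (le_max_right _ _) h6
  rcases hT.2 (by omega) with hr | hc
  · exact hcon i₁ _ (by omega) (hGp.trans (hr p h7 (by omega)))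
  · exact hcon _ _ hi₃ ((hM₂ N (by omega)).trans hc.1)

end Pool.Agent.Helper52.Wq2
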