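import Pool.Agent.Helper52.Wq2.Geo

set_option autoImplicit false

namespace Pool.Agent.Helper52.Wq2

variable {Γ : Type*} [CommGroup Γ] {S : Set Γ} {s : Γ} {N : ℕ} {F : Γ → ℤ}

/-- Every class modulo `s` lies in a set containing `1` and closed under multiplication by the
generators. -/
theorem quot_induct (hS : IsGen S) (P : (Γ ⧸ Subgroup.zpowers s) → Prop) (h1 : P 1)
    (hmul : ∀ q, P q → ∀ u ∈ S, P (q * (u : Γ ⧸ Subgroup.zpowers s))) : ∀ q, P q := by
  intro q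
  obtain ⟨g, rfl⟩ := QuotientGroup.mk_surjective q
  refine Wqo.gen_induct ⟨hS.1, hS.2.1⟩ (fun g => P (g : Γ ⧸ Subgroup.zpowers s)) h1 ?_ g
  intro a b ha hab
  have := hmul _ ha _ hab
  rwa [← QuotientGroup.mk_mul, mul_inv_cancel_left] at this

/-- Shape of the generating set modulo `s`. -/
theorem R1.classify (h : R1 S s N F) (hN : 5 ≤ N) :
    (∃ u ∈ S, ∃ v ∈ S, ∃ w ∈ S, ((u : Γ ⧸ Subgroup.zpowers s)) ≠ 1 ∧
      ((v : Γ ⧸ Subgroup.zpowers s)) ≠ 1 ∧ ((w : Γ ⧸ Subgroup.zpowers s)) ≠ 1 ∧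
      ((u : Γ ⧸ Subgroup.zpowers s)) ≠ v ∧ ((u : Γ ⧸ Subgroup.zpowers s)) ≠ w ∧
      ((v : Γ ⧸ Subgroup.zpowers s)) ≠ w) ∨
    ∃ t ∈ S, (∀ k n : ℤ, t ^ k = s ^ n → (N : ℤ) ∣ k) ∧ (∀ g : Γ, ∃ x y : ℤ, g = s ^ x * t ^ y) ∧
      (((∀ u ∈ S, u = s ∨ u = s⁻¹ ∨ u = t ∨ u = t⁻¹ ∨ u = t * s ∨ u = (t * s)⁻¹) ∧
        (t * s ∈ S → F t ≤ 0)) ∨ (t * s ^ (2 : ℤ) ∈ S ∧ F t = -N)) := by
  classical
  by_cases h3 : (∃ u ∈ S, ∃ v ∈ S, ∃ w ∈ S, ((u : Γ ⧸ Subgroup.zpowers s)) ≠ 1 ∧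
      ((v : Γ ⧸ Subgroup.zpowers s)) ≠ 1 ∧ ((w : Γ ⧸ Subgroup.zpowers s)) ≠ 1 ∧
      ((u : Γ ⧸ Subgroup.zpowers s)) ≠ v ∧ ((u : Γ ⧸ Subgroup.zpowers s)) ≠ w ∧
      ((v : Γ ⧸ Subgroup.zpowers s)) ≠ w)
  · exact Or.inl h3
  right
  have hNpos : (0 : ℤ) < N := by exact_mod_cast h.pos
  have no3 : ∀ u ∈ S, ∀ v ∈ S, ∀ w ∈ S, ((u : Γ ⧸ Subgroup.zpowers s)) ≠ 1 →
      ((v : Γ ⧸ Subgroup.zpowers s)) ≠ 1 → ((w : Γ ⧸ Subgroup.zpowers s)) ≠ 1 →
      ((u : Γ ⧸ Subgroup.zpowers s)) ≠ v → ((w : Γ ⧸ Subgroup.zpowers s)) = u ∨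
      ((w : Γ ⧸ Subgroup.zpowers s)) = v := by
    intro u hu v hv w hw e1 e2 e3 e4
    by_contra hcon
    push Not at hcon
    exact h3 ⟨u, hu, v, hv, w, hw, e1, e2, e3, e4, Ne.symm hcon.1, Ne.symm hcon.2⟩
  have hfinQ : Finite (Γ ⧸ Subgroup.zpowers s) :=
    Nat.finite_of_card_ne_zero (by rw [h.card]; exact h.pos.ne')
  have small : ∀ A : Finset (Γ ⧸ Subgroup.zpowers s), (∀ q, q ∈ A) → N ≤ A.card := by
    intro A hA
    have hfin : Fintype (Γ ⧸ Subgroup.zpowers s) := Fintype.ofFinite _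
    have h1 : (Finset.univ : Finset (Γ ⧸ Subgroup.zpowers s)).card ≤ A.card :=
      Finset.card_le_card (fun q _ => hA q)
    rwa [Finset.card_univ, ← Nat.card_eq_fintype_card, h.card] at h1
  have inv_cls : ∀ u : Γ, ((u⁻¹ : Γ) : Γ ⧸ Subgroup.zpowers s) = (u : Γ ⧸ Subgroup.zpowers s)⁻¹ :=
    fun u => QuotientGroup.mk_inv _ u
  -- a generator outside the subgroup of `s`
  obtain ⟨t₀, ht₀, ht₀1⟩ : ∃ t₀ ∈ S, ((t₀ : Γ ⧸ Subgroup.zpowers s)) ≠ 1 := by
    by_contra hcon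
    push Not at hcon
    have hall := quot_induct h.gen (fun q : Γ ⧸ Subgroup.zpowers s => q = 1) rfl
      (by rintro q rfl u hu; rw [hcon u hu, mul_one])
    have := small {1} (fun q => Finset.mem_singleton.2 (hall q))
    rw [Finset.card_singleton] at this
    omega
  have ht₀i : t₀⁻¹ ∈ S := h.gen.2.1 _ ht₀
  have ht₀i1 : ((t₀⁻¹ : Γ) : Γ ⧸ Subgroup.zpowers s) ≠ 1 := by
    rw [inv_cls]
    exact fun h' => ht₀1 (inv_eq_one.1 h')
  have hsq : ((t₀ : Γ ⧸ Subgroup.zpowers s)) ≠ ((t₀⁻¹ : Γ) : Γ ⧸ Subgroup.zpowers s) := by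
    intro heq
    rw [inv_cls] at heq
    have hsq1 : (t₀ : Γ ⧸ Subgroup.zpowers s) * t₀ = 1 := by
      nth_rewrite 2 [heq]
      exact mul_inv_cancel _
    obtain ⟨u, hu, hu1, hut⟩ : ∃ u ∈ S, ((u : Γ ⧸ Subgroup.zpowers s)) ≠ 1 ∧
        ((u : Γ ⧸ Subgroup.zpowers s)) ≠ t₀ := by
      by_contra hcon
      push Not at hcon
      have hall := quot_induct h.gen (fun q : Γ ⧸ Subgroup.zpowers s => q = 1 ∨ q = t₀)
        (Or.inl rfl) (by
          rintro q hq u hu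
          by_cases hu1 : ((u : Γ ⧸ Subgroup.zpowers s)) = 1
          · rw [hu1, mul_one]; exact hq
          · rw [hcon u hu hu1]
            rcases hq with rfl | rfl
            · right; rw [one_mul]
            · left; exact hsq1)
      have := small {1, (t₀ : Γ ⧸ Subgroup.zpowers s)} (fun q => by
        rw [Finset.mem_insert, Finset.mem_singleton]; exact hall q)
      have h2 := Finset.card_le_two (a := (1 : Γ ⧸ Subgroup.zpowers s))
        (b := (t₀ : Γ ⧸ Subgroup.zpowers s))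
      omega
    have hui : u⁻¹ ∈ S := h.gen.2.1 _ hu
    have hui1 : ((u⁻¹ : Γ) : Γ ⧸ Subgroup.zpowers s) ≠ 1 := by
      rw [inv_cls]
      exact fun h' => hu1 (inv_eq_one.1 h')
    have huu : (u : Γ ⧸ Subgroup.zpowers s) * u = 1 := by
      rcases no3 t₀ ht₀ u hu u⁻¹ hui ht₀1 hu1 hui1 (Ne.symm hut) with h' | h'
      · exfalso
        rw [inv_cls] at h'
        apply hut
        have : (u : Γ ⧸ Subgroup.zpowers s) = (t₀ : Γ ⧸ Subgroup.zpowers s)⁻¹ := by
          rw [← h', inv_inv]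
        rw [this]; exact heq.symm
      · rw [inv_cls] at h'
        nth_rewrite 1 [← h']
        exact inv_mul_cancel _
    have hall := quot_induct h.gen (fun q : Γ ⧸ Subgroup.zpowers s => q = 1 ∨ q = t₀ ∨ q = u ∨
        q = t₀ * u) (Or.inl rfl) (by
          rintro q hq v hv
          by_cases hv1 : ((v : Γ ⧸ Subgroup.zpowers s)) = 1
          · rw [hv1, mul_one]; exact hq
          · rcases no3 t₀ ht₀ u hu v hv ht₀1 hu1 hv1 (Ne.symm hut) with h' | h'
            · rw [h']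
              rcases hq with rfl | rfl | rfl | rfl
              · right; left; rw [one_mul]
              · left; exact hsq1
              · right; right; right; rw [mul_comm]
              · right; right; left
                rw [mul_comm (t₀ : Γ ⧸ Subgroup.zpowers s), mul_assoc, hsq1, mul_one]
            · rw [h']
              rcases hq with rfl | rfl | rfl | rfl
              · right; right; left; rw [one_mul]
              · right; right; right; rfl
              · left; exact huu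
              · right; left
                rw [mul_assoc, huu, mul_one])
    have := small {1, (t₀ : Γ ⧸ Subgroup.zpowers s), (u : Γ ⧸ Subgroup.zpowers s),
      (t₀ : Γ ⧸ Subgroup.zpowers s) * u} (fun q => by
        simp only [Finset.mem_insert, Finset.mem_singleton]; exact hall q)
    have h2 := Finset.card_le_four (a := (1 : Γ ⧸ Subgroup.zpowers s))
        (b := (t₀ : Γ ⧸ Subgroup.zpowers s)) (c := (u : Γ ⧸ Subgroup.zpowers s))
        (d := (t₀ : Γ ⧸ Subgroup.zpowers s) * u)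
    omega
  have hcls : ∀ v ∈ S, ((v : Γ ⧸ Subgroup.zpowers s)) = 1 ∨
      ((v : Γ ⧸ Subgroup.zpowers s)) = t₀ ∨
      ((v : Γ ⧸ Subgroup.zpowers s)) = ((t₀⁻¹ : Γ) : Γ ⧸ Subgroup.zpowers s) := by
    intro v hv
    by_cases hv1 : ((v : Γ ⧸ Subgroup.zpowers s)) = 1
    · exact Or.inl hv1
    · exact Or.inr (no3 t₀ ht₀ _ ht₀i v hv ht₀1 ht₀i1 hv1 hsq)
  have hcyc : ∀ q : Γ ⧸ Subgroup.zpowers s, ∃ y : ℤ, (t₀ : Γ ⧸ Subgroup.zpowers s) ^ y = q := by
    refine quot_induct h.gen _ ⟨0, zpow_zero _⟩ ?_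
    rintro q ⟨y, rfl⟩ u hu
    rcases hcls u hu with h' | h' | h'
    · exact ⟨y, by rw [h', mul_one]⟩
    · exact ⟨y + 1, by rw [h', zpow_add_one]⟩
    · exact ⟨y - 1, by rw [h', inv_cls, zpow_sub_one]⟩
  have hord : ∀ k : ℤ, (t₀ : Γ ⧸ Subgroup.zpowers s) ^ k = 1 → (N : ℤ) ∣ k := by
    intro k hk
    have h1 : orderOf (t₀ : Γ ⧸ Subgroup.zpowers s) = N := by
      rw [← h.card]
      exact orderOf_eq_card_of_forall_mem_zpowers (fun q => by
        obtain ⟨y, hy⟩ := hcyc q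
        exact ⟨y, hy⟩)
    rw [← h1]
    exact orderOf_dvd_iff_zpow_eq_one.2 hk
  -- normalise the exponent
  have hFs := h.F_s
  have hFt : ∀ α : ℤ, F (t₀ * s ^ α) = F t₀ + α * N := by
    intro α
    rw [h.add, h.F_zpow, hFs]
  have hbound : ∀ α : ℤ, t₀ * s ^ α ∈ S → -(2 + |F t₀|) ≤ α := by
    intro α hα
    have h1 := h.max _ hα
    rw [hFt, abs_le] at h1
    by_contra hcon
    push Not at hcon
    have h2 : α * (N : ℤ) ≤ (-(3 + |F t₀|)) * N :=
      mul_le_mul_of_nonneg_right (by omega) hNpos.le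
    have h3 : F t₀ ≤ |F t₀| := le_abs_self _
    have h4 : |F t₀| ≤ |F t₀| * N := by
      have := abs_nonneg (F t₀)
      exact le_mul_of_one_le_right this (by omega)
    have h5 : (-(3 + |F t₀|)) * (N : ℤ) = -(3 * N) - |F t₀| * N := by ring
    rw [h5] at h2
    omega
  obtain ⟨α₀, hα₀, hmin⟩ : ∃ α₀ : ℤ, t₀ * s ^ α₀ ∈ S ∧ ∀ α : ℤ, t₀ * s ^ α ∈ S → α₀ ≤ α := by
    have hex : ∃ α : ℤ, t₀ * s ^ α ∈ S := ⟨0, by rw [zpow_zero, mul_one]; exact ht₀⟩
    obtain ⟨α₀, h1, h2⟩ := Int.exists_least_of_bdd (P := fun α : ℤ => t₀ * s ^ α ∈ S)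
      ⟨_, hbound⟩ hex
    exact ⟨α₀, h1, h2⟩
  have hcos : ∀ (g : Γ) (n : ℤ), ((g * s ^ n : Γ) : Γ ⧸ Subgroup.zpowers s) = g :=
    fun g n => (mem_coset_iff.2 ⟨n, rfl⟩).symm
  have hts : ∀ α : ℤ, (t₀ * s ^ α₀) * s ^ α ∈ S → 0 ≤ α ∧ α ≤ 2 ∧
      F (t₀ * s ^ α₀) + α * N ≤ N := by
    intro α hα
    have e : (t₀ * s ^ α₀) * s ^ α = t₀ * s ^ (α₀ + α) := by rw [mul_assoc, ← zpow_add]
    have h1 := hmin (α₀ + α) (e ▸ hα)
    have h2 := h.max _ hα
    have h3 := h.max _ hα₀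
    rw [h.add, h.F_zpow, hFs, abs_le] at h2
    rw [abs_le] at h3
    refine ⟨by omega, ?_, h2.2⟩
    have h4 : α * (N : ℤ) < 3 * N := by omega
    have := lt_of_mul_lt_mul_right h4 hNpos.le
    omega
  refine ⟨t₀ * s ^ α₀, hα₀, ?_, ?_, ?_⟩
  · intro k n hk
    apply hord
    have h1 : ((t₀ * s ^ α₀ : Γ) : Γ ⧸ Subgroup.zpowers s) ^ k = 1 := by
      rw [← QuotientGroup.mk_zpow, hk, QuotientGroup.eq_one_iff]
      exact ⟨n, rfl⟩
    rwa [hcos] at h1
  · intro g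
    obtain ⟨y, hy⟩ := hcyc (g : Γ ⧸ Subgroup.zpowers s)
    rw [← QuotientGroup.mk_zpow] at hy
    obtain ⟨n, hn⟩ := mem_coset_iff.1 hy
    refine ⟨n - α₀ * y, y, ?_⟩
    rw [hn, mul_zpow, ← zpow_mul, zpow_sub]
    rw [mul_comm (t₀ ^ y) (s ^ (α₀ * y)), ← mul_assoc, inv_mul_cancel_right, mul_comm]
  · by_cases h2 : (t₀ * s ^ α₀) * s ^ (2 : ℤ) ∈ S
    · right
      refine ⟨h2, ?_⟩
      have h4 := (hts 2 h2).2.2
      have h5 := h.max _ hα₀
      rw [abs_le] at h5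
      omega
    · left
      have cls_t : ∀ v ∈ S, ((v : Γ ⧸ Subgroup.zpowers s)) = t₀ →
          v = t₀ * s ^ α₀ ∨ v = t₀ * s ^ α₀ * s := by
        intro v hv hvt
        obtain ⟨n, hn⟩ := mem_coset_iff.1 hvt.symm
        have e : v = (t₀ * s ^ α₀) * s ^ (n - α₀) := by
          rw [mul_assoc, ← zpow_add, hn]
          congr 2
          ring
        have h4 := hts (n - α₀) (e ▸ hv)
        have h5 : n - α₀ = 0 ∨ n - α₀ = 1 ∨ n - α₀ = 2 := by omega
        rcases h5 with h5 | h5 | h5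
        · left; rw [e, h5, zpow_zero, mul_one]
        · right; rw [e, h5, zpow_one]
        · exfalso
          rw [h5] at e
          exact h2 (e ▸ hv)
      refine ⟨?_, ?_⟩
      · intro v hv
        rcases hcls v hv with h' | h' | h'
        · rw [← QuotientGroup.mk_one] at h'
          obtain ⟨n, hn⟩ := mem_coset_iff.1 h'.symm
          rw [one_mul] at hn
          have h4 := h.max v hv
          rw [hn, h.F_zpow, hFs, abs_mul, Nat.abs_cast] at h4
          have h5 : |n| ≤ 1 := by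
            have : |n| * (N : ℤ) ≤ 1 * N := by rw [one_mul]; exact h4
            exact le_of_mul_le_mul_right this hNpos
          rw [abs_le] at h5
          have h6 : n = 0 ∨ n = 1 ∨ n = -1 := by omega
          rcases h6 with h6 | h6 | h6
          · exfalso
            rw [h6, zpow_zero] at hn
            exact h.gen.2.2 (hn ▸ hv)
          · left; rw [hn, h6, zpow_one]
          · right; left; rw [hn, h6, zpow_neg_one]
        · rcases cls_t v hv h' with h4 | h4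
          · right; right; left; exact h4
          · right; right; right; right; left; exact h4
        · have hvi := h.gen.2.1 v hv
          have h4 : ((v⁻¹ : Γ) : Γ ⧸ Subgroup.zpowers s) = t₀ := by
            rw [inv_cls, h', inv_cls, inv_inv]
          rcases cls_t _ hvi h4 with h5 | h5
          · right; right; right; left
            rw [← h5, inv_inv]
          · right; right; right; right; right
            rw [← h5, inv_inv]
      · intro h4
        have := (hts 1 (by rw [zpow_one]; exact h4)).2.2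
        omega

end Pool.Agent.Helper52.Wq2
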