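import Pool.Agent.Helper52.Wq2.Cls

set_option autoImplicit false

namespace Pool.Agent.Helper52.Wq2

variable {Γ : Type*} [CommGroup Γ] {S : Set Γ} {s t : Γ} {N : ℕ} {F : Γ → ℤ}

theorem pk_zero {V : Type*} (G : SimpleGraph V) : Mn (Pk 0) G :=
  ⟨fun v => v.2.elim0, fun v => v.2.elim0, fun v => v.2.elim0, fun v => v.2.elim0⟩

/-- Uniqueness of the representation `s ^ x * t ^ y`. -/
theorem R1.uniq (h : R1 S s N F) (hord : ∀ k n : ℤ, t ^ k = s ^ n → (N : ℤ) ∣ k)
    {x y x' y' : ℤ} (he : s ^ x * t ^ y = s ^ x' * t ^ y') (hy : |y - y'| < N) :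
    x = x' ∧ y = y' := by
  have e : t ^ (y - y') = s ^ (x' - x) := by
    rw [zpow_sub, zpow_sub]
    have h1 : t ^ y = (s ^ x)⁻¹ * (s ^ x' * t ^ y') := by rw [← he, inv_mul_cancel_left]
    rw [h1, ← mul_assoc, mul_inv_cancel_right, mul_comm]
  have h2 := hord _ _ e
  have h3 : y - y' = 0 := Int.eq_zero_of_abs_lt_dvd h2 hy
  have h4 : y = y' := by omega
  subst h4
  refine ⟨zpow_inj_of_inf h.inf (mul_right_cancel he), rfl⟩

/-- Both `t` and `t s²` in `S`: two layers. -/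
theorem R1.rich2 (h : R1 S s N F) (hord : ∀ k n : ℤ, t ^ k = s ^ n → (N : ℤ) ∣ k)
    (ht : t ∈ S) (hts : t * s ^ (2 : ℤ) ∈ S) (p : ℕ) (hN : 4 * p ≤ N) : Mn (Pk p) (cay S) := by
  rcases Nat.eq_zero_or_pos p with rfl | hp
  · exact pk_zero _
  refine (pk_of_starZ p).trans ?_
  have hs := h.mem
  have aT : ∀ x y : ℤ, (cay S).Adj (s ^ x * t ^ y) (s ^ x * t ^ (y + 1)) := by
    intro x y
    rw [zpow_add_one, ← mul_assoc]
    exact cay_adj_mul h.gen _ ht
  have aS : ∀ x y : ℤ, (cay S).Adj (s ^ x * t ^ y) (s ^ (x + 1) * t ^ y) := by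
    intro x y
    have e : s ^ (x + 1) * t ^ y = (s ^ x * t ^ y) * s := by
      rw [zpow_add_one, mul_right_comm]
    rw [e]
    exact cay_adj_mul h.gen _ hs
  have aD : ∀ x y : ℤ, (cay S).Adj (s ^ x * t ^ y) (s ^ (x + 2) * t ^ (y + 1)) := by
    intro x y
    have e : s ^ (x + 2) * t ^ (y + 1) = (s ^ x * t ^ y) * (t * s ^ (2 : ℤ)) := by
      rw [zpow_add, zpow_add_one, mul_mul_mul_comm, mul_comm (s ^ (2 : ℤ)) t]
    rw [e]
    exact cay_adj_mul h.gen _ hts
  refine ⟨fun v => match v.2 with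
    | none => {g | ∃ y : ℤ, (0 ≤ y ∧ y < 4 * p) ∧ s ^ (2 * v.1 + 1) * t ^ y = g}
    | some i => {g | ∃ y : ℤ, (2 * (i : ℕ) ≤ y ∧ y < 2 * (i : ℕ) + 2) ∧
        s ^ (2 * v.1) * t ^ y = g}, ?_, ?_, ?_⟩
  · rintro ⟨x, _ | i⟩
    · refine conn_line (fun y : ℤ => s ^ (2 * x + 1) * t ^ y) (fun y => 0 ≤ y ∧ y < 4 * p) 0
        ⟨le_refl _, by omega⟩ ?_ ?_ (fun y _ _ => aT _ _)
      · rintro y hy ⟨h1, h2⟩
        exact ⟨hy, by omega⟩
      · rintro y hy ⟨h1, h2⟩
        exact ⟨by omega, by omega⟩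
    · refine conn_line (fun y : ℤ => s ^ (2 * x) * t ^ y)
        (fun y => 2 * (i : ℕ) ≤ y ∧ y < 2 * (i : ℕ) + 2) (2 * (i : ℕ))
        ⟨le_refl _, by omega⟩ ?_ ?_ (fun y _ _ => aT _ _)
      · rintro y hy ⟨h1, h2⟩
        exact ⟨hy, by omega⟩
      · rintro y hy ⟨h1, h2⟩
        exact ⟨by omega, by omega⟩
  · rintro ⟨x, _ | i⟩ ⟨x', _ | j⟩ w hw hw'
    · obtain ⟨y, hy, rfl⟩ := hw
      obtain ⟨y', hy', he⟩ := hw'
      have := (h.uniq hord he (by rw [abs_lt]; omega)).1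
      have e : x = x' := by omega
      rw [e]
    · obtain ⟨y, hy, rfl⟩ := hw
      obtain ⟨y', hy', he⟩ := hw'
      have hj := j.2
      have := (h.uniq hord he (by rw [abs_lt]; omega)).1
      omega
    · obtain ⟨y, hy, rfl⟩ := hw
      obtain ⟨y', hy', he⟩ := hw'
      have hi := i.2
      have := (h.uniq hord he (by rw [abs_lt]; omega)).1
      omega
    · obtain ⟨y, hy, rfl⟩ := hw
      obtain ⟨y', hy', he⟩ := hw'
      have hi := i.2
      have hj := j.2
      obtain ⟨e1, e2⟩ := h.uniq hord he (by rw [abs_lt]; omega)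
      have e : x = x' := by omega
      have e' : i = j := Fin.ext (by omega)
      rw [e, e']
  · have ln : ∀ (x : ℤ) (o : Option (Fin (2 * p))),
        ∃ a ∈ (match o with
          | none => {g | ∃ y : ℤ, (0 ≤ y ∧ y < 4 * p) ∧ s ^ (2 * x + 1) * t ^ y = g}
          | some i => {g | ∃ y : ℤ, (2 * (i : ℕ) ≤ y ∧ y < 2 * (i : ℕ) + 2) ∧
              s ^ (2 * x) * t ^ y = g} : Set Γ),
        ∃ b ∈ (match o with
          | none => {g | ∃ y : ℤ, (0 ≤ y ∧ y < 4 * p) ∧ s ^ (2 * (x + 1) + 1) * t ^ y = g}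
          | some i => {g | ∃ y : ℤ, (2 * (i : ℕ) ≤ y ∧ y < 2 * (i : ℕ) + 2) ∧
              s ^ (2 * (x + 1)) * t ^ y = g} : Set Γ), (cay S).Adj a b := by
      rintro x (_ | i)
      · refine ⟨s ^ (2 * x + 1) * t ^ (0 : ℤ), ⟨0, ⟨le_refl _, by omega⟩, rfl⟩,
          s ^ (2 * x + 1 + 2) * t ^ ((0 : ℤ) + 1), ⟨1, ⟨by omega, by omega⟩, ?_⟩, aD _ _⟩
        congr 2
        ring
      · refine ⟨s ^ (2 * x) * t ^ (2 * ((i : ℕ) : ℤ)), ⟨_, ⟨le_refl _, by omega⟩, rfl⟩,
          s ^ (2 * x + 2) * t ^ (2 * ((i : ℕ) : ℤ) + 1), ⟨2 * ((i : ℕ) : ℤ) + 1,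
          ⟨by omega, by omega⟩, ?_⟩, aD _ _⟩
        congr 2
        ring
    have sp : ∀ (x : ℤ) (i : Fin (2 * p)),
        ∃ a ∈ ({g | ∃ y : ℤ, (0 ≤ y ∧ y < 4 * p) ∧ s ^ (2 * x + 1) * t ^ y = g} : Set Γ),
        ∃ b ∈ ({g | ∃ y : ℤ, (2 * (i : ℕ) ≤ y ∧ y < 2 * (i : ℕ) + 2) ∧
              s ^ (2 * x) * t ^ y = g} : Set Γ), (cay S).Adj a b := by
      intro x i
      have hi := i.2
      exact ⟨s ^ (2 * x + 1) * t ^ (2 * ((i : ℕ) : ℤ)), ⟨_, ⟨by omega, by omega⟩, rfl⟩,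
        s ^ (2 * x) * t ^ (2 * ((i : ℕ) : ℤ)), ⟨_, ⟨le_refl _, by omega⟩, rfl⟩, (aS _ _).symm⟩
    rintro ⟨x, o⟩ ⟨x', o'⟩ hadj
    unfold StarZ at hadj
    rw [SimpleGraph.fromRel_adj] at hadj
    obtain ⟨hne, (⟨h1, h2⟩ | ⟨h1, h2⟩) | (⟨h1, h2⟩ | ⟨h1, h2⟩)⟩ := hadj
    · simp only at h1 h2
      subst h1 h2
      exact ln x o
    · simp only at h1 h2
      subst h1 h2
      rcases o' with _ | i
      · exact absurd rfl hne
      · exact sp x i
    · simp only at h1 h2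
      subst h1 h2
      obtain ⟨a, ha, b, hb, hab⟩ := ln x' o'
      exact ⟨b, hb, a, ha, hab.symm⟩
    · simp only at h1 h2
      subst h1 h2
      rcases o with _ | i
      · exact absurd rfl hne
      · obtain ⟨a, ha, b, hb, hab⟩ := sp x' i
        exact ⟨b, hb, a, ha, hab.symm⟩

/-- The column of an element. -/
theorem R1.exists_col (hord : ∀ k n : ℤ, t ^ k = s ^ n → (N : ℤ) ∣ k)
    (hgen : ∀ g : Γ, ∃ x y : ℤ, g = s ^ x * t ^ y) :
    ∃ c : Γ → ZMod N, ∀ x y : ℤ, c (s ^ x * t ^ y) = (y : ZMod N) := by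
  choose X Y hXY using hgen
  refine ⟨fun g => (Y g : ZMod N), ?_⟩
  intro x y
  have he := hXY (s ^ x * t ^ y)
  show (Y (s ^ x * t ^ y) : ZMod N) = (y : ZMod N)
  generalize X (s ^ x * t ^ y) = x' at he
  generalize Y (s ^ x * t ^ y) = y' at he ⊢
  have e : t ^ (y' - y) = s ^ (x - x') := by
    rw [zpow_sub, zpow_sub]
    have h1 : t ^ y' = (s ^ x')⁻¹ * (s ^ x * t ^ y) := by rw [he, inv_mul_cancel_left]
    rw [h1, ← mul_assoc, mul_inv_cancel_right, mul_comm]
  have h2 := hord _ _ e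
  have h3 : ((y' - y : ℤ) : ZMod N) = 0 := (ZMod.intCast_zmod_eq_zero_iff_dvd _ _).2 h2
  rw [Int.cast_sub] at h3
  exact sub_eq_zero.1 h3

/-- Properties of the column function. -/
structure Col (s t : Γ) (N : ℕ) (F : Γ → ℤ) (c : Γ → ZMod N) : Prop where
  ms : ∀ g, c (g * s) = c g
  mt : ∀ g, c (g * t) = c g + 1
  eq : ∀ g h, c g = c h → ∃ n : ℤ, h = g * s ^ n
  pt : ∀ (j : ZMod N) (A : ℤ), ∃ g, c g = j ∧ A ≤ F g ∧ F g < A + N

theorem R1.col (h : R1 S s N F) (hord : ∀ k n : ℤ, t ^ k = s ^ n → (N : ℤ) ∣ k)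
    (hgen : ∀ g : Γ, ∃ x y : ℤ, g = s ^ x * t ^ y) : ∃ c : Γ → ZMod N, Col s t N F c := by
  obtain ⟨c, hc⟩ := R1.exists_col hord hgen
  have hN : (0 : ℤ) < N := by exact_mod_cast h.pos
  refine ⟨c, ?_, ?_, ?_, ?_⟩
  · intro g
    obtain ⟨x, y, rfl⟩ := hgen g
    have e : s ^ x * t ^ y * s = s ^ (x + 1) * t ^ y := by
      rw [zpow_add_one, mul_right_comm]
    rw [e, hc, hc]
  · intro g
    obtain ⟨x, y, rfl⟩ := hgen g
    have e : s ^ x * t ^ y * t = s ^ x * t ^ (y + 1) := by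
      rw [zpow_add_one, mul_assoc]
    rw [e, hc, hc]
    push_cast
    ring
  · intro g g' hgg
    obtain ⟨x, y, rfl⟩ := hgen g
    obtain ⟨x', y', rfl⟩ := hgen g'
    rw [hc, hc] at hgg
    have h1 : ((y' - y : ℤ) : ZMod N) = 0 := by
      rw [Int.cast_sub, hgg, sub_self]
    obtain ⟨k, hk⟩ := (ZMod.intCast_zmod_eq_zero_iff_dvd _ _).1 h1
    have hy : y' = y + N * k := by omega
    refine ⟨x' - x + F t * k, ?_⟩
    rw [hy, zpow_add, zpow_mul t, zpow_natCast, h.pow, ← zpow_mul, zpow_add, zpow_sub]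
    rw [mul_mul_mul_comm (s ^ x) (t ^ y)]
    rw [mul_comm (s ^ x') (s ^ x)⁻¹, mul_inv_cancel_left]
  · intro j A
    have hne : NeZero N := ⟨h.pos.ne'⟩
    let a : ℤ := F (t ^ (j.val : ℤ))
    have h1 := Int.emod_add_mul_ediv (a - A) N
    have h2 := Int.emod_nonneg (a - A) hN.ne'
    have h3 := Int.emod_lt_of_pos (a - A) hN
    have hF : F (s ^ (-((a - A) / N)) * t ^ (j.val : ℤ)) = a - N * ((a - A) / N) := by
      rw [h.add, h.F_zpow, h.F_s]
      show -((a - A) / N) * N + a = _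
      ring
    refine ⟨s ^ (-((a - A) / N)) * t ^ (j.val : ℤ), ?_, ?_, ?_⟩
    · rw [hc]
      simp
    · rw [hF]; omega
    · rw [hF]; omega

/-- Lower bound: the Cayley graph contains the cylinder with `N` columns. -/
theorem R1.cyl_minor (h : R1 S s N F) {c : Γ → ZMod N} (hc : Col s t N F c) (ht : t ∈ S) :
    Mn (Cyl N) (cay S) := by
  have hN : (0 : ℤ) < N := by exact_mod_cast h.pos
  have hFt := h.max t ht
  rw [abs_le] at hFt
  have cs : ∀ (g : Γ) (n : ℤ), c (g * s ^ n) = c g := by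
    have csi : ∀ g, c (g * s⁻¹) = c g := by
      intro g
      have := hc.ms (g * s⁻¹)
      rw [inv_mul_cancel_right] at this
      exact this.symm
    intro g n
    induction n using Int.induction_on with
    | zero => rw [zpow_zero, mul_one]
    | succ n ih => rw [zpow_add_one, ← mul_assoc, hc.ms, ih]
    | pred n ih => rw [zpow_sub_one, ← mul_assoc, csi, ih]
  refine ⟨fun v => {g | c g = v.2 ∧ 2 * N * v.1 ≤ F g ∧ F g < 2 * N * v.1 + 2 * N}, ?_, ?_, ?_⟩
  · rintro ⟨n, j⟩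
    obtain ⟨g₀, h1, h2, h3⟩ := hc.pt j (2 * N * n)
    have hset : {g | c g = j ∧ 2 * N * n ≤ F g ∧ F g < 2 * N * n + 2 * N} =
        {g | ∃ x : ℤ, (2 * N * n ≤ F g₀ + x * N ∧ F g₀ + x * N < 2 * N * n + 2 * N) ∧
          g₀ * s ^ x = g} := by
      ext g
      constructor
      · rintro ⟨e1, e2, e3⟩
        obtain ⟨x, rfl⟩ := hc.eq g₀ g (h1.trans e1.symm)
        rw [h.add, h.F_zpow, h.F_s] at e2 e3
        exact ⟨x, ⟨e2, e3⟩, rfl⟩
      · rintro ⟨x, ⟨e2, e3⟩, rfl⟩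
        refine ⟨by rw [cs]; exact h1, ?_, ?_⟩
        · rw [h.add, h.F_zpow, h.F_s]; exact e2
        · rw [h.add, h.F_zpow, h.F_s]; exact e3
    show Conn (cay S) {g | c g = j ∧ 2 * N * n ≤ F g ∧ F g < 2 * N * n + 2 * N}
    rw [hset]
    refine conn_line (fun x : ℤ => g₀ * s ^ x) _ 0 ⟨by omega, by omega⟩ ?_ ?_ ?_
    · rintro x hx ⟨e1, e2⟩
      have h4 : 0 ≤ x * (N : ℤ) := mul_nonneg hx hN.le
      rw [add_mul, one_mul] at e2
      exact ⟨by omega, by omega⟩
    · rintro x hx ⟨e1, e2⟩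
      have h4 : x * (N : ℤ) ≤ 0 := mul_nonpos_of_nonpos_of_nonneg hx hN.le
      rw [sub_mul, one_mul] at e1
      exact ⟨by omega, by omega⟩
    · intro x _ _
      show (cay S).Adj (g₀ * s ^ x) (g₀ * s ^ (x + 1))
      rw [zpow_add_one, ← mul_assoc]
      exact cay_adj_mul h.gen _ h.mem
  · rintro ⟨n, j⟩ ⟨m, k⟩ g ⟨e1, e2, e3⟩ ⟨f1, f2, f3⟩
    simp only at e1 e2 e3 f1 f2 f3
    have a1 : (2 * (N : ℤ)) * n < 2 * N * (m + 1) := by
      rw [mul_add, mul_one]; omega
    have a2 : (2 * (N : ℤ)) * m < 2 * N * (n + 1) := by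
      rw [mul_add, mul_one]; omega
    have b1 := lt_of_mul_lt_mul_left a1 (by omega)
    have b2 := lt_of_mul_lt_mul_left a2 (by omega)
    have : n = m := by omega
    rw [this, ← e1, ← f1]
  · have up : ∀ (n : ℤ) (j : ZMod N), ∃ a ∈ {g | c g = j ∧ 2 * N * n ≤ F g ∧
        F g < 2 * N * n + 2 * N}, ∃ b ∈ {g | c g = j ∧ 2 * N * (n + 1) ≤ F g ∧
        F g < 2 * N * (n + 1) + 2 * N}, (cay S).Adj a b := by
      intro n j
      obtain ⟨g, h1, h2, h3⟩ := hc.pt j (2 * N * n + N)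
      refine ⟨g, ⟨h1, by omega, by omega⟩, g * s, ⟨by rw [hc.ms]; exact h1, ?_, ?_⟩,
        cay_adj_mul h.gen _ h.mem⟩
      · rw [h.add, h.F_s, mul_add, mul_one]; omega
      · rw [h.add, h.F_s, mul_add, mul_one]; omega
    have rt : ∀ (n : ℤ) (j : ZMod N), ∃ a ∈ {g | c g = j ∧ 2 * N * n ≤ F g ∧
        F g < 2 * N * n + 2 * N}, ∃ b ∈ {g | c g = j + 1 ∧ 2 * N * n ≤ F g ∧
        F g < 2 * N * n + 2 * N}, (cay S).Adj a b := by
      intro n j
      rcases le_or_gt 0 (F t) with h0 | h0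
      · obtain ⟨g, h1, h2, h3⟩ := hc.pt j (2 * N * n)
        refine ⟨g, ⟨h1, by omega, by omega⟩, g * t, ⟨by rw [hc.mt, h1], ?_, ?_⟩,
          cay_adj_mul h.gen _ ht⟩
        · rw [h.add]; omega
        · rw [h.add]; omega
      · obtain ⟨g, h1, h2, h3⟩ := hc.pt j (2 * N * n + N)
        refine ⟨g, ⟨h1, by omega, by omega⟩, g * t, ⟨by rw [hc.mt, h1], ?_, ?_⟩,
          cay_adj_mul h.gen _ ht⟩
        · rw [h.add]; omega
        · rw [h.add]; omega
    rintro ⟨n, j⟩ ⟨m, k⟩ hadj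
    unfold Cyl at hadj
    rw [SimpleGraph.fromRel_adj] at hadj
    obtain ⟨hne, (⟨h1, h2⟩ | ⟨h1, h2⟩) | (⟨h1, h2⟩ | ⟨h1, h2⟩)⟩ := hadj
    · simp only at h1 h2
      subst h1 h2
      exact up n j
    · simp only at h1 h2
      subst h1 h2
      exact rt n j
    · simp only at h1 h2
      subst h1 h2
      obtain ⟨a, ha, b, hb, hab⟩ := up m k
      exact ⟨b, hb, a, ha, hab.symm⟩
    · simp only at h1 h2
      subst h1 h2
      obtain ⟨a, ha, b, hb, hab⟩ := rt m k
      exact ⟨b, hb, a, ha, hab.symm⟩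

theorem conn_chain {V : Type*} {G : SimpleGraph V} (A : ℕ → Set V) (n : ℕ)
    (h1 : ∀ i, i ≤ n → Conn G (A i))
    (h2 : ∀ i, i < n → ∃ a ∈ A i, ∃ b ∈ A (i + 1), G.Adj a b) :
    Conn G {v | ∃ i, i ≤ n ∧ v ∈ A i} := by
  induction n with
  | zero =>
    have : {v | ∃ i, i ≤ 0 ∧ v ∈ A i} = A 0 := by
      ext v
      constructor
      · rintro ⟨i, hi, hv⟩
        have : i = 0 := by omega
        rwa [this] at hv
      · intro hv
        exact ⟨0, le_refl _, hv⟩
    rw [this]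
    exact h1 0 (le_refl _)
  | succ n ih =>
    have ih' := ih (fun i hi => h1 i (by omega)) (fun i hi => h2 i (by omega))
    obtain ⟨a, ha, b, hb, hab⟩ := h2 n (by omega)
    have := ih'.union (h1 (n + 1) (le_refl _)) ⟨n, le_refl _, ha⟩ hb hab
    have e : {v | ∃ i, i ≤ n + 1 ∧ v ∈ A i} = {v | ∃ i, i ≤ n ∧ v ∈ A i} ∪ A (n + 1) := by
      ext v
      constructor
      · rintro ⟨i, hi, hv⟩
        rcases Nat.lt_or_ge n i with h' | h'
        · have : i = n + 1 := by omega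
          rw [this] at hv
          exact Or.inr hv
        · exact Or.inl ⟨i, h', hv⟩
      · rintro (⟨i, hi, hv⟩ | hv)
        · exact ⟨i, by omega, hv⟩
        · exact ⟨n + 1, le_refl _, hv⟩
    rw [e]
    exact this

/-- Upper bound: a minor of every wide cylinder. -/
theorem R1.minor_cyl (h : R1 S s N F) {c : Γ → ZMod N} (hc : Col s t N F c) (ht : t ∈ S)
    (hS : ∀ u ∈ S, u = s ∨ u = s⁻¹ ∨ u = t ∨ u = t⁻¹ ∨ u = t * s ∨ u = (t * s)⁻¹)
    (hN3 : 3 ≤ N) {M : ℕ} (hM : 3 * N ≤ M) : Mn (cay S) (Cyl M) := by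
  have hN : (0 : ℤ) < N := by exact_mod_cast h.pos
  have hne : NeZero N := ⟨by omega⟩
  have hneM : NeZero M := ⟨by omega⟩
  have hFt := h.max t ht
  rw [abs_le] at hFt
  let dl : ℕ → ℤ := fun i => if i = 0 then 0 else if i = 1 then (F t + 1) / 2 else F t + 1
  let len : ℕ → ℕ := fun b => if b = N - 1 then M - 1 - 3 * b else 2
  have hlen2 : ∀ b, b < N → 2 ≤ len b := by
    intro b hb
    show 2 ≤ (if b = N - 1 then M - 1 - 3 * b else 2)
    split_ifs <;> omega
  have hlenM : ∀ b, b < N → 3 * b + len b < M := by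
    intro b hb
    show 3 * b + (if b = N - 1 then M - 1 - 3 * b else 2) < M
    split_ifs <;> omega
  have hdl : ∀ i, |dl i - dl (i + 1)| < N := by
    intro i
    show |(if i = 0 then (0 : ℤ) else if i = 1 then (F t + 1) / 2 else F t + 1) -
      (if i + 1 = 0 then (0 : ℤ) else if i + 1 = 1 then (F t + 1) / 2 else F t + 1)| < N
    rw [abs_lt]
    rcases Nat.lt_trichotomy i 1 with h' | h' | h'
    · have h0 : i = 0 := by omega
      subst h0
      simp only [zero_add, if_true, one_ne_zero, if_false]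
      omega
    · subst h'
      rw [if_neg one_ne_zero, if_pos rfl, if_neg (by omega), if_neg (by omega)]
      omega
    · rw [if_neg (by omega), if_neg (by omega), if_neg (by omega), if_neg (by omega)]
      omega
  have cvert : ∀ (x : ℤ) (Y : ZMod M), (Cyl M).Adj (x, Y) (x + 1, Y) := by
    intro x Y
    unfold Cyl
    rw [SimpleGraph.fromRel_adj]
    refine ⟨?_, Or.inl (Or.inl ⟨rfl, rfl⟩)⟩
    intro h'
    have := congrArg Prod.fst h'
    simp at this
  have chor : ∀ (x : ℤ) (Y : ZMod M), (Cyl M).Adj (x, Y) (x, Y + 1) := by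
    intro x Y
    unfold Cyl
    rw [SimpleGraph.fromRel_adj]
    refine ⟨?_, Or.inl (Or.inr ⟨rfl, rfl⟩)⟩
    intro h'
    have h1 := congrArg Prod.snd h'
    simp only at h1
    have h2 : (1 : ZMod M) = 0 := by
      have := left_eq_add.1 h1
      exact this
    have h3 : ((1 : ℕ) : ZMod M) = 0 := by rw [Nat.cast_one]; exact h2
    rw [ZMod.natCast_eq_zero_iff] at h3
    have := Nat.le_of_dvd (by omega) h3
    omega
  let A : Γ → ℕ → Set (ℤ × ZMod M) := fun g i =>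
    {v | ∃ x : ℤ, (F g + dl i ≤ x ∧ x < F g + dl i + N) ∧
      ((x, ((3 * (c g).val + i : ℕ) : ZMod M)) : ℤ × ZMod M) = v}
  have key : ∀ g u : Γ, u = s ∨ u = t ∨ u = t * s → ∃ a ∈ {v | ∃ i, i ≤ len (c g).val ∧ v ∈ A g i},
      ∃ b ∈ {v | ∃ i, i ≤ len (c (g * u)).val ∧ v ∈ A (g * u) i}, (Cyl M).Adj a b := by
    have hzero : dl 0 = 0 := rfl
    have hcol : ∀ (g u : Γ), c (g * u) = c g + 1 → F t ≤ F u → F u ≤ F t + N →
        ∃ a ∈ {v | ∃ i, i ≤ len (c g).val ∧ v ∈ A g i},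
        ∃ b ∈ {v | ∃ i, i ≤ len (c (g * u)).val ∧ v ∈ A (g * u) i}, (Cyl M).Adj a b := by
      intro g u hcu hu1 hu2
      have hb := ZMod.val_lt (c g)
      have hl2 := hlen2 _ hb
      have hlast : dl (len (c g).val) = F t + 1 := by
        show (if len (c g).val = 0 then (0 : ℤ) else if len (c g).val = 1 then (F t + 1) / 2
          else F t + 1) = F t + 1
        rw [if_neg (by omega), if_neg (by omega)]
      have hfirst : (((3 * (c g).val + len (c g).val : ℕ) : ZMod M) + 1) =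
          ((3 * (c (g * u)).val + 0 : ℕ) : ZMod M) := by
        rw [hcu]
        by_cases hbN : (c g).val = N - 1
        · have e1 : c g + 1 = 0 := by
            have : c g = ((N - 1 : ℕ) : ZMod N) := by
              rw [← hbN, ZMod.natCast_zmod_val]
            rw [this]
            have e2 : ((N - 1 : ℕ) : ZMod N) + 1 = ((N - 1 + 1 : ℕ) : ZMod N) := by push_cast; ring
            rw [e2, Nat.sub_add_cancel (by omega), ZMod.natCast_self]
          rw [e1, ZMod.val_zero]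
          have e3 : len (c g).val = M - 1 - 3 * (c g).val := by
            show (if (c g).val = N - 1 then M - 1 - 3 * (c g).val else 2) = _
            rw [if_pos hbN]
          rw [e3]
          have e4 : (((3 * (c g).val + (M - 1 - 3 * (c g).val) : ℕ) : ZMod M) + 1) =
              ((M : ℕ) : ZMod M) := by
            have e5 : 3 * (c g).val + (M - 1 - 3 * (c g).val) = M - 1 := by omega
            rw [e5]
            have e6 : ((M - 1 : ℕ) : ZMod M) + 1 = ((M - 1 + 1 : ℕ) : ZMod M) := by push_cast; ring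
            rw [e6, Nat.sub_add_cancel (by omega)]
          rw [e4, ZMod.natCast_self]
          simp
        · have e1 : (c g + 1).val = (c g).val + 1 := by
            have e2 : (1 : ZMod N).val = 1 := by
              have : Fact (1 < N) := ⟨by omega⟩
              exact ZMod.val_one N
            rw [ZMod.val_add, e2, Nat.mod_eq_of_lt (by omega)]
          have e3 : len (c g).val = 2 := by
            show (if (c g).val = N - 1 then M - 1 - 3 * (c g).val else 2) = _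
            rw [if_neg hbN]
          rw [e1, e3]
          push_cast
          ring
      have hFu : F (g * u) = F g + F u := h.add g u
      -- common height
      obtain ⟨x, hx1, hx2, hx3, hx4⟩ : ∃ x : ℤ, F g + (F t + 1) ≤ x ∧ x < F g + (F t + 1) + N ∧
          F g + F u ≤ x ∧ x < F g + F u + N := by
        rcases le_or_gt (F t + 1) (F u) with h' | h'
        · exact ⟨F g + F u, by omega, by omega, by omega, by omega⟩
        · exact ⟨F g + (F t + 1), by omega, by omega, by omega, by omega⟩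
      refine ⟨(x, ((3 * (c g).val + len (c g).val : ℕ) : ZMod M)),
        ⟨len (c g).val, le_refl _, x, ⟨by rw [hlast]; omega, by rw [hlast]; omega⟩, rfl⟩,
        (x, ((3 * (c g).val + len (c g).val : ℕ) : ZMod M) + 1), ⟨0, Nat.zero_le _, x,
          ⟨by rw [hzero, hFu]; omega, by rw [hzero, hFu]; omega⟩, ?_⟩, chor _ _⟩
      rw [hfirst]
    intro g u hu
    rcases hu with hu | hu | hu
    · rw [hu]
      refine ⟨(F g + N - 1, ((3 * (c g).val + 0 : ℕ) : ZMod M)), ⟨0, Nat.zero_le _, F g + N - 1,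
        ⟨by rw [hzero]; omega, by rw [hzero]; omega⟩, rfl⟩,
        (F g + N - 1 + 1, ((3 * (c g).val + 0 : ℕ) : ZMod M)), ⟨0, Nat.zero_le _,
        F g + N - 1 + 1, ⟨?_, ?_⟩, ?_⟩, cvert _ _⟩
      · rw [hzero, h.add, h.F_s]; omega
      · rw [hzero, h.add, h.F_s]; omega
      · rw [hc.ms]
    · rw [hu]
      exact hcol g t (hc.mt g) (le_refl _) (by omega)
    · rw [hu]
      refine hcol g (t * s) ?_ ?_ ?_
      · rw [← mul_assoc, hc.ms, hc.mt]
      · rw [h.add, h.F_s]; omega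
      · rw [h.add, h.F_s]
  refine ⟨fun g => {v | ∃ i, i ≤ len (c g).val ∧ v ∈ A g i}, ?_, ?_, ?_⟩
  · intro g
    refine conn_chain (A g) (len (c g).val) ?_ ?_
    · intro i hi
      refine conn_line (fun x : ℤ => ((x, ((3 * (c g).val + i : ℕ) : ZMod M)) : ℤ × ZMod M))
        (fun x => F g + dl i ≤ x ∧ x < F g + dl i + N) (F g + dl i) ⟨le_refl _, by omega⟩ ?_ ?_
        (fun x _ _ => cvert _ _)
      · rintro x hx ⟨h1, h2⟩
        exact ⟨hx, by omega⟩
      · rintro x hx ⟨h1, h2⟩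
        exact ⟨by omega, by omega⟩
    · intro i hi
      have hd := hdl i
      rw [abs_lt] at hd
      obtain ⟨x, hx1, hx2, hx3, hx4⟩ : ∃ x : ℤ, F g + dl i ≤ x ∧ x < F g + dl i + N ∧
          F g + dl (i + 1) ≤ x ∧ x < F g + dl (i + 1) + N := by
        rcases le_or_gt (dl i) (dl (i + 1)) with h' | h'
        · exact ⟨F g + dl (i + 1), by omega, by omega, by omega, by omega⟩
        · exact ⟨F g + dl i, by omega, by omega, by omega, by omega⟩
      refine ⟨(x, ((3 * (c g).val + i : ℕ) : ZMod M)), ⟨x, ⟨hx1, hx2⟩, rfl⟩,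
        (x, ((3 * (c g).val + i : ℕ) : ZMod M) + 1), ⟨x, ⟨hx3, hx4⟩, ?_⟩, chor _ _⟩
      congr 1
      push_cast
      ring
  · rintro g g' v ⟨i, hi, x, ⟨h1, h2⟩, rfl⟩ ⟨i', hi', x', ⟨h3, h4⟩, he⟩
    have e1 := congrArg Prod.fst he
    have e2 := congrArg Prod.snd he
    simp only at e1 e2
    subst e1
    have hb := ZMod.val_lt (c g)
    have hb' := ZMod.val_lt (c g')
    have hl := hlenM _ hb
    have hl' := hlenM _ hb'
    have e3 : 3 * (c g').val + i' = 3 * (c g).val + i := by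
      have := congrArg ZMod.val e2
      rwa [ZMod.val_natCast_of_lt (by omega), ZMod.val_natCast_of_lt (by omega)] at this
    have hshort : ∀ b, b ≠ N - 1 → len b = 2 := by
      intro b hb
      show (if b = N - 1 then M - 1 - 3 * b else 2) = 2
      rw [if_neg hb]
    have e4 : (c g).val = (c g').val := by
      rcases Nat.lt_trichotomy (c g).val (c g').val with h' | h' | h'
      · have := hshort (c g).val (by omega)
        omega
      · exact h'
      · have := hshort (c g').val (by omega)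
        omega
    have e5 : i = i' := by omega
    subst e5
    obtain ⟨n, rfl⟩ := hc.eq g g' (ZMod.val_injective N e4)
    rw [h.add, h.F_zpow, h.F_s] at h3 h4
    have h5 : n * (N : ℤ) < 1 * N := by omega
    have h6 : (-1 : ℤ) * N < n * N := by omega
    have h7 := lt_of_mul_lt_mul_right h5 hN.le
    have h8 := lt_of_mul_lt_mul_right h6 hN.le
    have : n = 0 := by omega
    rw [this, zpow_zero, mul_one]
  · intro g g' hadj
    rw [cay_adj h.gen] at hadj
    have hg' : g' = g * (g⁻¹ * g') := by rw [mul_inv_cancel_left]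
    have hg : g = g' * (g⁻¹ * g')⁻¹ := by rw [mul_inv_rev, inv_inv, mul_inv_cancel_left]
    generalize g⁻¹ * g' = u at hadj hg' hg
    rcases hS u hadj with rfl | rfl | rfl | rfl | rfl | rfl
    · rw [hg']
      exact key g _ (Or.inl rfl)
    · rw [inv_inv] at hg
      obtain ⟨a, ha, b, hb, hab⟩ := key g' s (Or.inl rfl)
      rw [← hg] at hb
      exact ⟨b, hb, a, ha, hab.symm⟩
    · rw [hg']
      exact key g _ (Or.inr (Or.inl rfl))
    · rw [inv_inv] at hg
      obtain ⟨a, ha, b, hb, hab⟩ := key g' t (Or.inr (Or.inl rfl))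
      rw [← hg] at hb
      exact ⟨b, hb, a, ha, hab.symm⟩
    · rw [hg']
      exact key g _ (Or.inr (Or.inr rfl))
    · rw [inv_inv] at hg
      obtain ⟨a, ha, b, hb, hab⟩ := key g' (t * s) (Or.inr (Or.inr rfl))
      rw [← hg] at hb
      exact ⟨b, hb, a, ha, hab.symm⟩

end Pool.Agent.Helper52.Wq2
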