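import Mathlib

set_option autoImplicit false

namespace Pool.Agent.Helper52.Wq2

/-- Connectedness of a set of vertices in terms of closed subsets. -/
def Conn {V : Type*} (G : SimpleGraph V) (s : Set V) : Prop :=
  s.Nonempty ∧ ∀ A ⊆ s, A.Nonempty → (∀ a ∈ A, ∀ b ∈ s, G.Adj a b → b ∈ A) → s ⊆ A

/-- Minor models in terms of `Conn`. -/
def Model {V W : Type*} (H : SimpleGraph V) (G : SimpleGraph W) (φ : V → Set W) : Prop :=
  (∀ v, Conn G (φ v)) ∧ (∀ v w x, x ∈ φ v → x ∈ φ w → v = w) ∧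
    (∀ v w, H.Adj v w → ∃ a ∈ φ v, ∃ b ∈ φ w, G.Adj a b)

/-- `H` is a minor of `G`. -/
def Mn {V W : Type*} (H : SimpleGraph V) (G : SimpleGraph W) : Prop := ∃ φ, Model H G φ

/-- Admissible generating set. -/
def IsGen {Γ : Type*} [Group Γ] (S : Set Γ) : Prop :=
  Subgroup.closure S = ⊤ ∧ (∀ s ∈ S, s⁻¹ ∈ S) ∧ (1 : Γ) ∉ S

/-- Cayley graph. -/
def cay {Γ : Type*} [Group Γ] (S : Set Γ) : SimpleGraph Γ :=
  SimpleGraph.fromRel (fun a b : Γ => a⁻¹ * b ∈ S)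

/-- Star times line: `(x, none)` are the centre vertices, `(x, some i)` the leaf lines. -/
def StarZ (ι : Type*) : SimpleGraph (ℤ × Option ι) :=
  SimpleGraph.fromRel (fun a b => (a.2 = b.2 ∧ b.1 = a.1 + 1) ∨ (a.1 = b.1 ∧ a.2 = none))

/-- The two-way infinite path blown up by complete graphs on `p` vertices. -/
def Pk (p : ℕ) : SimpleGraph (ℤ × Fin p) :=
  SimpleGraph.fromRel (fun a b => |a.1 - b.1| ≤ 1)

/-- Cylinder with `m` columns: cycle times line (`m ≥ 1`; for `m ≤ 2` degenerate). -/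
def Cyl (m : ℕ) : SimpleGraph (ℤ × ZMod m) :=
  SimpleGraph.fromRel (fun a b => (a.2 = b.2 ∧ b.1 = a.1 + 1) ∨ (a.1 = b.1 ∧ b.2 = a.2 + 1))

/-- Square (`b = false`) and triangular (`b = true`) lattice. -/
def Lat (b : Bool) : SimpleGraph (ℤ × ℤ) :=
  SimpleGraph.fromRel (fun u v => v - u = (1, 0) ∨ v - u = (0, 1) ∨ (b = true ∧ v - u = (1, 1)))

/-- Periodic graph given by finite data. -/
def Per (N : ℕ) (D : Fin N → Fin N → Fin 3 → Bool) : SimpleGraph (ℤ × Fin N) :=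
  SimpleGraph.fromRel (fun a b => ∃ c : Fin 3, b.1 - a.1 = (c : ℤ) - 1 ∧ D a.2 b.2 c = true)

end Pool.Agent.Helper52.Wq2
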