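import Pool.Agent.Helper52.Wq2.Rank2

set_option autoImplicit false

namespace Pool.Agent.Helper52.Wq2

/-- Data of a rank one pair: `s ∈ S` of infinite order and finite index `N`, the homomorphism
`F` with `g ^ N = s ^ F g`, and maximality of the index of `s`. -/
structure R1 {Γ : Type*} [CommGroup Γ] (S : Set Γ) (s : Γ) (N : ℕ) (F : Γ → ℤ) : Prop where
  gen : IsGen S
  mem : s ∈ S
  inf : ∀ n : ℤ, s ^ n = 1 → n = 0
  pos : 0 < N
  add : ∀ g h, F (g * h) = F g + F h
  pow : ∀ g, g ^ N = s ^ F g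
  max : ∀ u ∈ S, |F u| ≤ N
  card : Nat.card (Γ ⧸ Subgroup.zpowers s) = N

variable {Γ : Type*} [CommGroup Γ] {S : Set Γ} {s : Γ} {N : ℕ} {F : Γ → ℤ}

theorem zpow_inj_of_inf (hinf : ∀ n : ℤ, s ^ n = 1 → n = 0) {m n : ℤ} (h : s ^ m = s ^ n) :
    m = n := by
  have : s ^ (m - n) = 1 := by rw [zpow_sub, h, mul_inv_cancel]
  have := hinf _ this
  omega

theorem R1.F_s (h : R1 S s N F) : F s = N := by
  have := h.pow s
  rw [← zpow_natCast] at this
  exact (zpow_inj_of_inf h.inf this).symm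

theorem R1.F_one (h : R1 S s N F) : F 1 = 0 := by
  have := h.add 1 1
  rw [mul_one] at this
  omega

theorem R1.F_inv (h : R1 S s N F) (g : Γ) : F g⁻¹ = - F g := by
  have := h.add g g⁻¹
  rw [mul_inv_cancel, h.F_one] at this
  omega

theorem R1.F_zpow (h : R1 S s N F) (g : Γ) (n : ℤ) : F (g ^ n) = n * F g := by
  have nat : ∀ k : ℕ, F (g ^ k) = k * F g := by
    intro k
    induction k with
    | zero => rw [pow_zero, h.F_one]; simp
    | succ k ih => rw [pow_succ, h.add, ih]; push_cast; ring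
  rcases Int.eq_nat_or_neg n with ⟨k, rfl | rfl⟩
  · rw [zpow_natCast, nat]
  · rw [zpow_neg, zpow_natCast, h.F_inv, nat]; ring

/-- An infinite abelian group generated by a finite set has a generator of infinite order. -/
theorem exists_inf {Q : Type*} [CommGroup Q] (hQ : Infinite Q) {T : Set Q} (hT : T.Finite)
    (hgen : Subgroup.closure T = ⊤) : ∃ t ∈ T, ∀ n : ℤ, t ^ n = 1 → n = 0 := by
  by_contra hcon
  push Not at hcon
  have hfg : Group.FG Q := ⟨⟨hT.toFinset, by rw [Set.Finite.coe_toFinset]; exact hgen⟩⟩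
  have htors : IsMulTorsion Q := by
    intro g
    have hle : Subgroup.closure T ≤ CommGroup.torsion Q := by
      rw [Subgroup.closure_le]
      intro t ht
      obtain ⟨n, hn, hn0⟩ := hcon t ht
      exact isOfFinOrder_iff_zpow_eq_one.2 ⟨n, hn0, hn⟩
    rw [hgen] at hle
    exact hle trivial
  have := CommGroup.finite_of_fg_isMulTorsion Q htors
  exact (not_finite_iff_infinite.2 hQ) this

theorem gen_quot (hS : IsGen S) (K : Subgroup Γ) :
    Subgroup.closure ((fun g : Γ => (g : Γ ⧸ K)) '' S) = ⊤ := by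
  have := MonoidHom.map_closure (QuotientGroup.mk' K) S
  rw [hS.1] at this
  rw [eq_top_iff]
  intro q _
  obtain ⟨g, rfl⟩ := QuotientGroup.mk_surjective q
  have h2 : (g : Γ ⧸ K) ∈ Subgroup.map (QuotientGroup.mk' K) ⊤ := ⟨g, trivial, rfl⟩
  rw [this] at h2
  exact h2

/-- Either two independent generators or a rank one structure. -/
theorem ind_or_R1 (hΓ : Infinite Γ) (hS : IsGen S) (hfin : S.Finite) :
    (∃ s ∈ S, ∃ t ∈ S, Ind s t) ∨ ∃ s N F, R1 S s N F := by
  by_cases hind : ∃ s ∈ S, ∃ t ∈ S, Ind s t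
  · exact Or.inl hind
  right
  have finQ : ∀ s ∈ S, (∀ n : ℤ, s ^ n = 1 → n = 0) → Finite (Γ ⧸ Subgroup.zpowers s) := by
    intro s hs hinf
    by_contra hQ
    rw [not_finite_iff_infinite] at hQ
    obtain ⟨q, ⟨t, ht, rfl⟩, htinf⟩ := exists_inf hQ (hfin.image _)
      (gen_quot hS (Subgroup.zpowers s))
    refine hind ⟨s, hs, t, ht, ?_⟩
    intro x y hxy
    have h1 : ((t : Γ ⧸ Subgroup.zpowers s)) ^ y = 1 := by
      have h2 : t ^ y = s ^ (-x) := by
        rw [zpow_neg]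
        exact eq_inv_of_mul_eq_one_right hxy
      rw [← QuotientGroup.mk_zpow, QuotientGroup.eq_one_iff, h2]
      exact ⟨-x, rfl⟩
    have hy := htinf y h1
    subst hy
    rw [zpow_zero, mul_one] at hxy
    exact ⟨hinf x hxy, rfl⟩
  have mkF : ∀ s ∈ S, (∀ n : ℤ, s ^ n = 1 → n = 0) →
      ∃ (N : ℕ) (F : Γ → ℤ), 0 < N ∧ (∀ g h, F (g * h) = F g + F h) ∧
        (∀ g, g ^ N = s ^ F g) ∧ Nat.card (Γ ⧸ Subgroup.zpowers s) = N := by
    intro s hs hinf
    have hf := finQ s hs hinf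
    have hpow : ∀ g : Γ, ∃ a : ℤ, g ^ (Nat.card (Γ ⧸ Subgroup.zpowers s)) = s ^ a := by
      intro g
      have h1 : (g : Γ ⧸ Subgroup.zpowers s) ^ (Nat.card (Γ ⧸ Subgroup.zpowers s)) = 1 :=
        pow_card_eq_one'
      rw [← QuotientGroup.mk_pow, QuotientGroup.eq_one_iff] at h1
      obtain ⟨a, ha⟩ := h1
      exact ⟨a, ha.symm⟩
    choose F hF using hpow
    refine ⟨_, F, Nat.card_pos, ?_, hF, rfl⟩
    intro g h
    apply zpow_inj_of_inf hinf
    rw [← hF, mul_pow, hF, hF, zpow_add]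
  obtain ⟨s₀, hs₀, hinf₀⟩ := exists_inf hΓ hfin hS.1
  obtain ⟨N₀, F₀, hN₀, hadd₀, hpow₀, _⟩ := mkF s₀ hs₀ hinf₀
  have hFs₀ : F₀ s₀ = N₀ := by
    have := hpow₀ s₀
    rw [← zpow_natCast] at this
    exact (zpow_inj_of_inf hinf₀ this).symm
  obtain ⟨s, hs, hmax⟩ := Set.exists_max_image S (fun u => |F₀ u|) hfin ⟨s₀, hs₀⟩
  have hs0 : 0 < |F₀ s| := by
    have h1 : |F₀ s₀| ≤ |F₀ s| := hmax s₀ hs₀
    rw [hFs₀, abs_of_nonneg (Int.natCast_nonneg N₀)] at h1
    omega
  have hF1 : F₀ 1 = 0 := by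
    have := hadd₀ 1 1
    rw [mul_one] at this
    omega
  have hFpow : ∀ (g : Γ) (k : ℕ), F₀ (g ^ k) = k * F₀ g := by
    intro g k
    induction k with
    | zero => rw [pow_zero, hF1]; simp
    | succ k ih => rw [pow_succ, hadd₀, ih]; push_cast; ring
  have hFzpow : ∀ (g : Γ) (n : ℤ), F₀ (g ^ n) = n * F₀ g := by
    intro g n
    have hinv : ∀ g, F₀ g⁻¹ = - F₀ g := by
      intro g
      have := hadd₀ g g⁻¹
      rw [mul_inv_cancel, hF1] at this
      omega
    rcases Int.eq_nat_or_neg n with ⟨k, rfl | rfl⟩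
    · rw [zpow_natCast, hFpow]
    · rw [zpow_neg, zpow_natCast, hinv, hFpow]; ring
  have hinf : ∀ n : ℤ, s ^ n = 1 → n = 0 := by
    intro n h
    have := hFzpow s n
    rw [h, hF1] at this
    rcases mul_eq_zero.1 this.symm with h1 | h1
    · exact h1
    · rw [h1] at hs0
      simp at hs0
  obtain ⟨N, F, hN, hadd, hpow, hcard⟩ := mkF s hs hinf
  refine ⟨s, N, F, hS, hs, hinf, hN, hadd, hpow, ?_, hcard⟩
  intro u hu
  have h1 := hFpow u N
  rw [hpow u, hFzpow] at h1
  have h2 : |F u| * |F₀ s| = N * |F₀ u| := by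
    rw [← abs_mul, h1, abs_mul, Nat.abs_cast]
  have h3 : |F₀ u| ≤ |F₀ s| := hmax u hu
  have h4 : |F u| * |F₀ s| ≤ N * |F₀ s| := by
    rw [h2]
    exact mul_le_mul_of_nonneg_left h3 (Int.natCast_nonneg N)
  exact le_of_mul_le_mul_right h4 hs0

theorem mem_coset_iff {g h : Γ} : (g : Γ ⧸ Subgroup.zpowers s) = h ↔ ∃ n : ℤ, h = g * s ^ n := by
  rw [QuotientGroup.eq]
  constructor
  · rintro ⟨n, hn⟩
    exact ⟨n, by rw [show s ^ n = g⁻¹ * h from hn, mul_inv_cancel_left]⟩
  · rintro ⟨n, rfl⟩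
    exact ⟨n, by simp⟩

/-- The Cayley graph of a rank one pair is a periodic graph with finite data. -/
theorem R1.per (h : R1 S s N F) : ∃ D, Nonempty (cay S ≃g Per N D) := by
  classical
  have hN : (0 : ℤ) < N := by exact_mod_cast h.pos
  have hfinQ : Finite (Γ ⧸ Subgroup.zpowers s) :=
    Nat.finite_of_card_ne_zero (by rw [h.card]; exact h.pos.ne')
  let e : (Γ ⧸ Subgroup.zpowers s) ≃ Fin N := Finite.equivFinOfCardEq h.card
  let f : Γ → ℤ × Fin N := fun g => (F g / N, e (g : Γ ⧸ Subgroup.zpowers s))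
  have hshift : ∀ (g : Γ) (n : ℤ), F (g * s ^ n) / N = F g / N + n := by
    intro g n
    rw [h.add, h.F_zpow, h.F_s, Int.add_mul_ediv_right _ _ hN.ne']
  have hcos : ∀ (g : Γ) (n : ℤ), ((g * s ^ n : Γ) : Γ ⧸ Subgroup.zpowers s) = g :=
    fun g n => (mem_coset_iff.2 ⟨n, rfl⟩).symm
  have hbij : Function.Bijective f := by
    constructor
    · intro g g' hg
      have h1 := congrArg Prod.fst hg
      have h2 := e.injective (congrArg Prod.snd hg)
      obtain ⟨n, rfl⟩ := mem_coset_iff.1 h2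
      have h3 : F g / N = F (g * s ^ n) / N := h1
      rw [hshift] at h3
      have : n = 0 := by omega
      rw [this, zpow_zero, mul_one]
    · rintro ⟨x, q⟩
      obtain ⟨g, hg⟩ := QuotientGroup.mk_surjective (e.symm q)
      refine ⟨g * s ^ (x - F g / N), Prod.ext ?_ ?_⟩
      · show F (g * s ^ (x - F g / N)) / N = x
        rw [hshift]; ring
      · show e ((g * s ^ (x - F g / N) : Γ) : Γ ⧸ Subgroup.zpowers s) = q
        rw [hcos, hg, Equiv.apply_symm_apply]
  let E : Γ ≃ ℤ × Fin N := Equiv.ofBijective f hbij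
  have hE : ∀ g, E g = (F g / N, e (g : Γ ⧸ Subgroup.zpowers s)) := fun g => rfl
  let r : Fin N → Γ := fun q => E.symm (0, q)
  have hr : ∀ x q, E.symm (x, q) = r q * s ^ x := by
    intro x q
    apply E.injective
    rw [Equiv.apply_symm_apply, hE, hshift, hcos]
    have h0 : E (r q) = (0, q) := Equiv.apply_symm_apply _ _
    rw [hE] at h0
    have h1 := congrArg Prod.fst h0
    have h2 := congrArg Prod.snd h0
    simp only at h1 h2
    rw [h1, h2, zero_add]
  have hdiff : ∀ g g' : Γ, g⁻¹ * g' ∈ S → |F g' / N - F g / N| ≤ 1 := by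
    intro g g' hgg
    have h1 := h.max _ hgg
    rw [h.add, h.F_inv] at h1
    rw [abs_le] at h1 ⊢
    have a1 := Int.emod_add_mul_ediv (F g) N
    have a2 := Int.emod_add_mul_ediv (F g') N
    have b1 := Int.emod_nonneg (F g) hN.ne'
    have b2 := Int.emod_lt_of_pos (F g) hN
    have b3 := Int.emod_nonneg (F g') hN.ne'
    have b4 := Int.emod_lt_of_pos (F g') hN
    constructor
    · have : (N : ℤ) * (F g / N) < N * (F g' / N + 2) := by linarith
      have := lt_of_mul_lt_mul_left this hN.le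
      omega
    · have : (N : ℤ) * (F g' / N) < N * (F g / N + 2) := by linarith
      have := lt_of_mul_lt_mul_left this hN.le
      omega
  refine ⟨fun q q' c => decide ((r q)⁻¹ * r q' * s ^ ((c : ℤ) - 1) ∈ S), ⟨⟨E, ?_⟩⟩⟩
  intro g g'
  obtain ⟨⟨x, q⟩, rfl⟩ := E.symm.surjective g
  obtain ⟨⟨y, q'⟩, rfl⟩ := E.symm.surjective g'
  rw [Equiv.apply_symm_apply, Equiv.apply_symm_apply, cay_adj h.gen]
  have key : ∀ (x y : ℤ) (q q' : Fin N), (E.symm (x, q))⁻¹ * E.symm (y, q') ∈ S ↔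
      ∃ c : Fin 3, y - x = (c : ℤ) - 1 ∧
        decide ((r q)⁻¹ * r q' * s ^ ((c : ℤ) - 1) ∈ S) = true := by
    intro x y q q'
    have e1 : (E.symm (x, q))⁻¹ * E.symm (y, q') = (r q)⁻¹ * r q' * s ^ (y - x) := by
      rw [hr, hr, mul_inv, zpow_sub]
      calc (r q)⁻¹ * (s ^ x)⁻¹ * (r q' * s ^ y)
          = (r q)⁻¹ * r q' * ((s ^ x)⁻¹ * s ^ y) := mul_mul_mul_comm _ _ _ _
        _ = _ := by rw [mul_comm (s ^ x)⁻¹]
    constructor
    · intro hm
      have hd := hdiff _ _ hm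
      have f1 : F (E.symm (x, q)) / N = x := by
        have := congrArg Prod.fst (Equiv.apply_symm_apply E (x, q))
        rwa [hE] at this
      have f2 : F (E.symm (y, q')) / N = y := by
        have := congrArg Prod.fst (Equiv.apply_symm_apply E (y, q'))
        rwa [hE] at this
      rw [f1, f2, abs_le] at hd
      refine ⟨⟨(y - x + 1).toNat, by omega⟩, ?_, ?_⟩
      · simp only
        omega
      · rw [decide_eq_true_eq]
        have : (((y - x + 1).toNat : ℕ) : ℤ) - 1 = y - x := by omega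
        simp only
        rw [this, ← e1]
        exact hm
    · rintro ⟨c, hc, hm⟩
      rw [decide_eq_true_eq] at hm
      rw [e1, hc]
      exact hm
  unfold Per
  rw [SimpleGraph.fromRel_adj]
  constructor
  · rintro ⟨_, hh | hh⟩
    · exact (key x y q q').2 hh
    · have := (key y x q' q).2 hh
      have := h.gen.2.1 _ this
      simpa using this
  · intro hm
    refine ⟨?_, Or.inl ((key x y q q').1 hm)⟩
    intro heq
    rw [heq, inv_mul_cancel] at hm
    exact h.gen.2.2 hm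

theorem per_pk (N : ℕ) (D : Fin N → Fin N → Fin 3 → Bool) : Mn (Per N D) (Pk N) := by
  refine Mn.of_inj id Function.injective_id ?_
  intro a b hab
  unfold Per at hab
  unfold Pk
  rw [SimpleGraph.fromRel_adj] at hab ⊢
  refine ⟨hab.1, ?_⟩
  rcases hab.2 with ⟨c, hc, _⟩ | ⟨c, hc, _⟩
  · left
    have := c.2
    simp only [id]
    rw [abs_le]
    omega
  · left
    have := c.2
    simp only [id]
    rw [abs_le]
    omega

theorem R1.pk (h : R1 S s N F) : Mn (cay S) (Pk N) := by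
  obtain ⟨D, ⟨e⟩⟩ := h.per
  exact (Mn.of_iso e).trans (per_pk N D)

end Pool.Agent.Helper52.Wq2
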