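import Pool.Agent.Helper52.Wq2.Minor

set_option autoImplicit false

namespace Pool.Agent.Helper52.Wq2

theorem starZ_line {ι : Type*} (x : ℤ) (o : Option ι) :
    (StarZ ι).Adj (x, o) (x + 1, o) := by
  unfold StarZ
  rw [SimpleGraph.fromRel_adj]
  refine ⟨?_, Or.inl (Or.inl ⟨rfl, rfl⟩)⟩
  intro h
  have := congrArg Prod.fst h
  simp at this

theorem starZ_spoke {ι : Type*} (x : ℤ) (i : ι) :
    (StarZ ι).Adj (x, none) (x, some i) := by
  unfold StarZ
  rw [SimpleGraph.fromRel_adj]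
  refine ⟨?_, Or.inl (Or.inr ⟨rfl, rfl⟩)⟩
  intro h
  have := congrArg Prod.snd h
  simp at this

theorem starZ_leafline {ι : Type*} (i : ι) (P : ℤ → Prop) (r : ℤ) (hr : P r)
    (hup : ∀ x, r ≤ x → P (x + 1) → P x) (hdn : ∀ x, x ≤ r → P (x - 1) → P x) :
    Conn (StarZ ι) {v | ∃ x, P x ∧ ((x, some i) : ℤ × Option ι) = v} :=
  conn_line (fun x => ((x, some i) : ℤ × Option ι)) P r hr hup hdn
    (fun x _ _ => starZ_line x (some i))

/-- The star times line over a countable index set contains the complete graph on `ℕ`. -/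
theorem complete_of_starZ : Mn (⊤ : SimpleGraph ℕ) (StarZ ℕ) := by
  refine ⟨fun i => {v | ∃ x, True ∧ ((x, some i) : ℤ × Option ℕ) = v} ∪ {((i : ℤ), none)},
    ?_, ?_, ?_⟩
  · intro i
    exact (starZ_leafline i (fun _ => True) 0 trivial (fun _ _ _ => trivial)
      (fun _ _ _ => trivial)).union (conn_singleton _ _) ⟨(i : ℤ), trivial, rfl⟩ rfl
      (starZ_spoke _ _).symm
  · rintro i j v (⟨x, _, rfl⟩ | hv) (⟨y, _, hy⟩ | hv')
    · have := congrArg Prod.snd hy
      simpa using this.symm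
    · have := congrArg Prod.snd (Set.mem_singleton_iff.1 hv')
      simp at this
    · rw [Set.mem_singleton_iff.1 hv] at hy
      have := congrArg Prod.snd hy
      simp at this
    · have h1 := congrArg Prod.fst
        ((Set.mem_singleton_iff.1 hv).symm.trans (Set.mem_singleton_iff.1 hv'))
      simpa using h1
  · intro i j _
    exact ⟨((i : ℤ), none), Or.inr rfl, ((i : ℤ), some j), Or.inl ⟨_, trivial, rfl⟩,
      starZ_spoke _ _⟩

/-- Index of the leaf line used by `(n, i)`. -/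
def lf (p : ℕ) (n : ℤ) (i : Fin p) : Fin (2 * p) :=
  if n % 2 = 0 then ⟨i.1, by omega⟩ else ⟨i.1 + p, by omega⟩

theorem lf_inj {p : ℕ} {n m : ℤ} {i j : Fin p} (h : lf p n i = lf p m j) :
    i = j ∧ n % 2 = m % 2 := by
  unfold lf at h
  have hi := i.2
  have hj := j.2
  split_ifs at h with h1 h2 h2
  · refine ⟨Fin.ext ?_, by omega⟩
    simpa using congrArg Fin.val h
  · have := congrArg Fin.val h
    simp at this
    omega
  · have := congrArg Fin.val h
    simp at this
    omega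
  · refine ⟨Fin.ext ?_, by omega⟩
    simpa using congrArg Fin.val h

/-- The star with `2p` leaves times line contains the blown up path. -/
theorem pk_of_starZ (p : ℕ) : Mn (Pk p) (StarZ (Fin (2 * p))) := by
  have win : ∀ (n m : ℤ) (x : ℤ), (p : ℤ) * n ≤ x → x < p * n + 2 * p → (p : ℤ) * m ≤ x →
      x < p * m + 2 * p → n % 2 = m % 2 → n = m := by
    intro n m x h1 h2 h3 h4 h5
    have a1 : (p : ℤ) * n < p * (m + 2) := by linarith
    have a2 : (p : ℤ) * m < p * (n + 2) := by linarith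
    have hp : (0 : ℤ) ≤ p := Int.natCast_nonneg p
    have b1 : n < m + 2 := lt_of_mul_lt_mul_left a1 hp
    have b2 : m < n + 2 := lt_of_mul_lt_mul_left a2 hp
    omega
  refine ⟨fun v => {w | ∃ x, ((p : ℤ) * v.1 ≤ x ∧ x < p * v.1 + 2 * p) ∧
      ((x, some (lf p v.1 v.2)) : ℤ × Option (Fin (2 * p))) = w} ∪
      {((p : ℤ) * v.1 + (v.2 : ℕ), none)}, ?_, ?_, ?_⟩
  · rintro ⟨n, i⟩
    have hi := i.2
    refine (starZ_leafline (lf p n i) (fun x => (p : ℤ) * n ≤ x ∧ x < p * n + 2 * p)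
      ((p : ℤ) * n + (i : ℕ)) ⟨by omega, by omega⟩ ?_ ?_).union (conn_singleton _ _)
      ⟨(p : ℤ) * n + (i : ℕ), ⟨by omega, by omega⟩, rfl⟩ rfl (starZ_spoke _ _).symm
    · rintro x hx ⟨h1, h2⟩
      exact ⟨by omega, by omega⟩
    · rintro x hx ⟨h1, h2⟩
      exact ⟨by omega, by omega⟩
  · rintro ⟨n, i⟩ ⟨m, j⟩ w (⟨x, ⟨h1, h2⟩, rfl⟩ | hv) (⟨y, ⟨h3, h4⟩, hy⟩ | hv')
    · have e1 := congrArg Prod.fst hy
      have e2 := congrArg Prod.snd hy
      simp only [Option.some.injEq] at e1 e2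
      obtain ⟨e3, e4⟩ := lf_inj e2
      subst e1
      have := win n m y h1 h2 h3 h4 e4.symm
      rw [this, e3]
    · have := congrArg Prod.snd (Set.mem_singleton_iff.1 hv')
      simp at this
    · rw [Set.mem_singleton_iff.1 hv] at hy
      have := congrArg Prod.snd hy
      simp at this
    · have h1 := congrArg Prod.fst
        ((Set.mem_singleton_iff.1 hv).symm.trans (Set.mem_singleton_iff.1 hv'))
      have hi := i.2
      have hj := j.2
      simp only at h1
      have hp : (0 : ℤ) ≤ p := Int.natCast_nonneg p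
      have hi' : ((i : ℕ) : ℤ) < p := by exact_mod_cast hi
      have hj' : ((j : ℕ) : ℤ) < p := by exact_mod_cast hj
      have a1 : (p : ℤ) * n < p * (m + 1) := by linarith [Int.natCast_nonneg (i : ℕ)]
      have a2 : (p : ℤ) * m < p * (n + 1) := by linarith [Int.natCast_nonneg (j : ℕ)]
      have b1 : n < m + 1 := lt_of_mul_lt_mul_left a1 hp
      have b2 : m < n + 1 := lt_of_mul_lt_mul_left a2 hp
      have hnm : n = m := by omega
      subst hnm
      have : i = j := Fin.ext (by omega)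
      rw [this]
  · have key : ∀ (n m : ℤ) (i j : Fin p), n = m ∨ n = m + 1 →
        ∃ a ∈ ({w | ∃ x, ((p : ℤ) * n ≤ x ∧ x < p * n + 2 * p) ∧
          ((x, some (lf p n i)) : ℤ × Option (Fin (2 * p))) = w} ∪
          {((p : ℤ) * n + (i : ℕ), none)} : Set (ℤ × Option (Fin (2 * p)))),
        ∃ b ∈ ({w | ∃ x, ((p : ℤ) * m ≤ x ∧ x < p * m + 2 * p) ∧
          ((x, some (lf p m j)) : ℤ × Option (Fin (2 * p))) = w} ∪
          {((p : ℤ) * m + (j : ℕ), none)} : Set (ℤ × Option (Fin (2 * p)))),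
        (StarZ (Fin (2 * p))).Adj a b := by
      intro n m i j hnm
      have hi := i.2
      refine ⟨((p : ℤ) * n + (i : ℕ), none), Or.inr rfl,
        ((p : ℤ) * n + (i : ℕ), some (lf p m j)), Or.inl ⟨_, ⟨?_, ?_⟩, rfl⟩, starZ_spoke _ _⟩
      · rcases hnm with rfl | rfl
        · omega
        · rw [mul_add]; omega
      · rcases hnm with rfl | rfl
        · omega
        · rw [mul_add]; omega
    rintro ⟨n, i⟩ ⟨m, j⟩ hadj
    unfold Pk at hadj
    rw [SimpleGraph.fromRel_adj] at hadj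
    obtain ⟨_, h⟩ := hadj
    have hab : |n - m| ≤ 1 := by
      rcases h with h | h
      · exact h
      · rw [abs_sub_comm]; exact h
    rw [abs_le] at hab
    have h3 : (n = m ∨ n = m + 1) ∨ m = n + 1 := by omega
    rcases h3 with h3 | h3
    · exact key n m i j h3
    · obtain ⟨a, ha, b, hb, hab⟩ := key m n j i (Or.inr h3)
      exact ⟨b, hb, a, ha, hab.symm⟩

/-- The star lemma: a connected set `C` of representatives of distinct cosets of the infinite
cyclic group generated by `s ∈ S`, and neighbours `ℓ i` in further distinct cosets. -/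
theorem starZ_of_group {Γ : Type*} [CommGroup Γ] {S : Set Γ} (hS : IsGen S) {s : Γ}
    (hs : s ∈ S) (hinf : ∀ n : ℤ, s ^ n = 1 → n = 0) {C : Set Γ} (hC : Conn (cay S) C)
    (hCs : ∀ g ∈ C, ∀ n : ℤ, g * s ^ n ∈ C → n = 0) {ι : Type*} (l : ι → Γ)
    (hl : ∀ i, ∃ c ∈ C, c⁻¹ * l i ∈ S) (hlC : ∀ i (n : ℤ), l i * s ^ n ∉ C)
    (hll : ∀ i j (n : ℤ), l i * s ^ n = l j → i = j) : Mn (StarZ ι) (cay S) := by
  refine ⟨fun v => match v.2 with
    | none => (fun g => g * s ^ v.1) '' C
    | some i => {l i * s ^ v.1}, ?_, ?_, ?_⟩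
  · rintro ⟨x, _ | i⟩
    · refine hC.image _ ?_
      intro a _ b _ hab
      right
      rw [cay_adj hS] at hab ⊢
      have e : (a * s ^ x)⁻¹ * (b * s ^ x) = a⁻¹ * b := by
        rw [mul_inv_rev, mul_comm a⁻¹ b, mul_comm b (s ^ x)]
        rw [← mul_assoc, mul_comm (s ^ x)⁻¹ a⁻¹, mul_assoc a⁻¹, inv_mul_cancel, mul_one]
        rw [mul_comm]
      rw [e]
      exact hab
    · exact conn_singleton _ _
  · rintro ⟨x, _ | i⟩ ⟨y, _ | j⟩ w hw hw'
    · obtain ⟨g, hg, rfl⟩ := hw
      obtain ⟨h, hh, hgh⟩ := hw'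
      have e : g = h * s ^ (y - x) := by
        rw [zpow_sub, ← mul_assoc]
        have : h * s ^ y = g * s ^ x := hgh
        rw [this, mul_assoc, mul_inv_cancel, mul_one]
      have h0 := hCs h hh (y - x) (e ▸ hg)
      have : x = y := by omega
      rw [this]
    · obtain ⟨g, hg, rfl⟩ := hw
      have e : g = l j * s ^ (y - x) := by
        rw [zpow_sub, ← mul_assoc]
        have : g * s ^ x = l j * s ^ y := hw'
        rw [← this, mul_assoc, mul_inv_cancel, mul_one]
      exact absurd (e ▸ hg) (hlC j (y - x))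
    · obtain ⟨g, hg, hgx⟩ := hw'
      have e : g = l i * s ^ (x - y) := by
        rw [zpow_sub, ← mul_assoc]
        have h1 : w = l i * s ^ x := hw
        have h2 : g * s ^ y = w := hgx
        rw [← h1, ← h2, mul_assoc, mul_inv_cancel, mul_one]
      exact absurd (e ▸ hg) (hlC i (x - y))
    · have h1 : w = l i * s ^ x := hw
      have h2 : w = l j * s ^ y := hw'
      have e : l i * s ^ (x - y) = l j := by
        rw [zpow_sub, ← mul_assoc, ← h1, h2, mul_assoc, mul_inv_cancel, mul_one]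
      have hij := hll i j (x - y) e
      subst hij
      have h0 : s ^ (x - y) = 1 := by
        have := e
        rwa [mul_eq_left] at this
      have := hinf _ h0
      have : x = y := by omega
      rw [this]
  · have sp : ∀ (x : ℤ) (i : ι), ∃ a ∈ (fun g => g * s ^ x) '' C, ∃ b ∈ ({l i * s ^ x} : Set Γ),
        (cay S).Adj a b := by
      intro x i
      obtain ⟨c, hc, hcl⟩ := hl i
      refine ⟨c * s ^ x, ⟨c, hc, rfl⟩, l i * s ^ x, rfl, ?_⟩
      rw [cay_adj hS]
      have e : (c * s ^ x)⁻¹ * (l i * s ^ x) = c⁻¹ * l i := by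
        rw [mul_comm c, mul_inv_rev, mul_comm (l i), mul_assoc, inv_mul_cancel_left]
      rw [e]
      exact hcl
    have ln : ∀ (x : ℤ) (g : Γ), (cay S).Adj (g * s ^ x) (g * s ^ (x + 1)) := by
      intro x g
      rw [zpow_add_one, ← mul_assoc]
      exact cay_adj_mul hS _ hs
    rintro ⟨x, o⟩ ⟨y, o'⟩ hadj
    unfold StarZ at hadj
    rw [SimpleGraph.fromRel_adj] at hadj
    obtain ⟨hne, (⟨h1, h2⟩ | ⟨h1, h2⟩) | (⟨h1, h2⟩ | ⟨h1, h2⟩)⟩ := hadj
    · simp only at h1 h2
      subst h1 h2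
      rcases o with _ | i
      · obtain ⟨c, hc⟩ := hC.1
        exact ⟨c * s ^ x, ⟨c, hc, rfl⟩, c * s ^ (x + 1), ⟨c, hc, rfl⟩, ln x c⟩
      · exact ⟨l i * s ^ x, rfl, l i * s ^ (x + 1), rfl, ln x (l i)⟩
    · simp only at h1 h2
      subst h1 h2
      rcases o' with _ | i
      · exact absurd rfl hne
      · exact sp x i
    · simp only at h1 h2
      subst h1 h2
      rcases o' with _ | i
      · obtain ⟨c, hc⟩ := hC.1
        exact ⟨c * s ^ (y + 1), ⟨c, hc, rfl⟩, c * s ^ y, ⟨c, hc, rfl⟩, (ln y c).symm⟩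
      · exact ⟨l i * s ^ (y + 1), rfl, l i * s ^ y, rfl, (ln y (l i)).symm⟩
    · simp only at h1 h2
      subst h1 h2
      rcases o with _ | i
      · exact absurd rfl hne
      · obtain ⟨a, ha, b, hb, hab⟩ := sp y i
        exact ⟨b, hb, a, ha, hab.symm⟩

end Pool.Agent.Helper52.Wq2
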